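import Pool.Agent.Helper57.NX.Defs2
import Pool.Agent.Helper5.NX.Basic

/-!
# Project NX, NX-15: block phases, localisation to one cell (auxiliary lemmas)
-/

set_option autoImplicit false

open Finset
open scoped BigOperators ComplexConjugate

namespace Pool.Agent.Helper57.NX

noncomputable section

/-! ### sums over blocks -/

theorem lpl_sum_blocks (G : ℕ → ℂ) (M T' : ℕ) :
    ∑ t ∈ range (M * T'), G t = ∑ j ∈ range M, ∑ t ∈ range T', G (j * T' + t) := by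
  induction M with
  | zero => simp
  | succ M ih => rw [Nat.succ_mul, sum_range_add, ih, sum_range_succ]

theorem lpl_cut (G : ℕ → ℂ) (hG : ∀ k, ‖G k‖ ≤ 1) (T T' : ℕ) (η : ℝ) (hη : 0 < η)
    (hT' : 1 ≤ T') (hTT : (T' : ℝ) ≤ η / 2 * T) (h : η ≤ ‖𝔼 t ∈ range T, G t‖) :
    ∃ j : ℕ, (j + 1) * T' ≤ T ∧ η / 2 ≤ ‖𝔼 t ∈ range T', G (j * T' + t)‖ := by
  by_contra hcon
  push Not at hcon
  have hT'0 : (0 : ℝ) < T' := by exact_mod_cast hT'
  have hTpos : (0 : ℝ) < T := by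
    by_contra h0
    have : (T : ℝ) = 0 := le_antisymm (not_lt.1 h0) (by positivity)
    rw [this] at hTT
    linarith
  have hM : T / T' * T' ≤ T := Nat.div_mul_le_self _ _
  have hr : T - T / T' * T' < T' := by
    have := Nat.mod_lt T hT'
    have h2 := Nat.div_add_mod' T T'
    omega
  have h1 : ∑ t ∈ range T, G t = ∑ j ∈ range (T / T'), ∑ t ∈ range T', G (j * T' + t)
      + ∑ t ∈ range (T - T / T' * T'), G (T / T' * T' + t) := by
    rw [← lpl_sum_blocks, ← sum_range_add, Nat.add_sub_cancel' hM]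
  have h2 : ∀ j ∈ range (T / T'), ‖∑ t ∈ range T', G (j * T' + t)‖ ≤ η / 2 * T' := by
    intro j hj
    have hj' : (j + 1) * T' ≤ T :=
      le_trans (Nat.mul_le_mul_right _ (Nat.succ_le_of_lt (mem_range.1 hj))) hM
    have h3 := hcon j hj'
    rw [expect_eq_sum_div_card, norm_div, card_range, Complex.norm_natCast,
      div_lt_iff₀ hT'0] at h3
    exact h3.le
  have h3 : ‖∑ t ∈ range T, G t‖ ≤ ((T / T' : ℕ) : ℝ) * (η / 2 * T') + ((T - T / T' * T' : ℕ) : ℝ) := by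
    rw [h1]
    refine (norm_add_le _ _).trans (add_le_add ?_ ?_)
    · refine (norm_sum_le _ _).trans ((sum_le_sum h2).trans ?_)
      simp
    · refine (norm_sum_le _ _).trans ((sum_le_sum fun _ _ => hG _).trans ?_)
      simp
  have h4 : η * T ≤ ‖∑ t ∈ range T, G t‖ := by
    rw [expect_eq_sum_div_card, norm_div, card_range, Complex.norm_natCast,
      le_div_iff₀ hTpos] at h
    exact h
  have h5 : ((T - T / T' * T' : ℕ) : ℝ) < T' := by exact_mod_cast hr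
  have h6 : ((T / T' : ℕ) : ℝ) * T' ≤ T := by exact_mod_cast hM
  have h7 : ((T / T' : ℕ) : ℝ) * (η / 2 * T') ≤ η / 2 * T := by
    calc ((T / T' : ℕ) : ℝ) * (η / 2 * T') = η / 2 * (((T / T' : ℕ) : ℝ) * T') := by ring
      _ ≤ η / 2 * T := by gcongr
  linarith

theorem lpl_expect_range {N : ℕ} [NeZero N] (F : ZMod N → ℂ) :
    𝔼 x, F x = 𝔼 v ∈ range N, F (v : ZMod N) := by
  rw [expect_eq_sum_div_card, expect_eq_sum_div_card, card_univ, ZMod.card, card_range]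
  congr 1
  obtain ⟨n, rfl⟩ : ∃ n, N = n + 1 := ⟨N - 1, by have := NeZero.ne N; omega⟩
  rw [← Fin.sum_univ_eq_sum_range (fun v : ℕ => F (v : ZMod (n + 1))) (n + 1)]
  refine sum_congr rfl fun x _ => ?_
  congr 1
  exact (ZMod.natCast_zmod_val (n := n + 1) x).symm

theorem lpl_expect_Ico (u T : ℕ) (F : ℕ → ℂ) :
    𝔼 k ∈ Ico u (u + T), F k = 𝔼 t ∈ range T, F (u + t) := by
  rw [expect_eq_sum_div_card, expect_eq_sum_div_card, Nat.card_Ico, card_range,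
    Nat.add_sub_cancel_left, sum_Ico_eq_sum_range, Nat.add_sub_cancel_left]

/-! ### variation of functions on `ZMod N'` given by functions of `val` -/

theorem lpl_seg {N' : ℕ} [NeZero N'] (G : ℕ → ℂ) (a l : ℕ) (h : a + l < N') :
    ∑ j ∈ range l, ‖G ((a : ZMod N') + (j : ZMod N') + 1).val - G ((a : ZMod N') + (j : ZMod N')).val‖
      = ∑ j ∈ range l, ‖G (a + j + 1) - G (a + j)‖ := by
  refine sum_congr rfl fun j hj => ?_
  have hj := mem_range.1 hj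
  have h1 : ((a : ZMod N') + (j : ZMod N') + 1) = ((a + j + 1 : ℕ) : ZMod N') := by push_cast; ring
  have h2 : ((a : ZMod N') + (j : ZMod N')) = ((a + j : ℕ) : ZMod N') := by push_cast; ring
  rw [h1, h2, ZMod.val_natCast_of_lt (by omega), ZMod.val_natCast_of_lt (by omega)]

theorem lpl_turn {N' : ℕ} [NeZero N'] (G : ℕ → ℂ) (B X : ℝ) (hX : 0 < X)
    (hG : ∀ t, ‖G t‖ ≤ 1)
    (h : ∀ a l : ℕ, ∑ j ∈ range l, ‖G (a + j + 1) - G (a + j)‖ ≤ B * (l / X + 1))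
    (a : ℕ) (ha : a < N') :
    ∑ j ∈ range (N' - a), ‖G ((a : ZMod N') + (j : ZMod N') + 1).val -
      G ((a : ZMod N') + (j : ZMod N')).val‖ ≤ B * (((N' - a : ℕ) : ℝ) / X + 1) + 2 := by
  have hB : 0 ≤ B := by simpa using h 0 0
  obtain ⟨l, hl⟩ : ∃ l, N' - a = l + 1 := ⟨N' - a - 1, by omega⟩
  rw [hl, sum_range_succ, lpl_seg G a l (by omega)]
  have h1 := h a l
  have h2 : ‖G ((a : ZMod N') + (l : ZMod N') + 1).val - G ((a : ZMod N') + (l : ZMod N')).val‖ ≤ 2 := by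
    refine (norm_sub_le _ _).trans ?_
    linarith [hG ((a : ZMod N') + (l : ZMod N') + 1).val, hG ((a : ZMod N') + (l : ZMod N')).val]
  have h3 : B * ((l : ℝ) / X + 1) ≤ B * (((l + 1 : ℕ) : ℝ) / X + 1) := by
    gcongr
    omega
  linarith

theorem lpl_wrap0 {N' : ℕ} [NeZero N'] (G : ℕ → ℂ) (B X : ℝ) (hX : 0 < X)
    (hG : ∀ t, ‖G t‖ ≤ 1)
    (h : ∀ a l : ℕ, ∑ j ∈ range l, ‖G (a + j + 1) - G (a + j)‖ ≤ B * (l / X + 1)) :
    ∀ l : ℕ, ∑ j ∈ range l, ‖G (((0 : ℕ) : ZMod N') + (j : ZMod N') + 1).val -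
      G (((0 : ℕ) : ZMod N') + (j : ZMod N')).val‖ ≤ (B / X + (B + 2) / N') * l + B := by
  have hB : 0 ≤ B := by simpa using h 0 0
  have hN : (0 : ℝ) < N' := by exact_mod_cast Nat.pos_of_ne_zero (NeZero.ne N')
  intro l
  induction l using Nat.strong_induction_on with
  | _ l ih =>
    rcases lt_or_ge l N' with hl | hl
    · rw [lpl_seg G 0 l (by omega)]
      refine (h 0 l).trans ?_
      have : 0 ≤ (B + 2) / N' * l := by positivity
      calc B * (l / X + 1) = B / X * l + B := by ring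
        _ ≤ (B / X + (B + 2) / N') * l + B := by nlinarith
    · obtain ⟨l', rfl⟩ : ∃ l', l = N' + l' := ⟨l - N', by omega⟩
      rw [sum_range_add]
      have h1 := lpl_turn (N' := N') G B X hX hG h 0 (Nat.pos_of_ne_zero (NeZero.ne N'))
      have h2 := ih l' (by have := Nat.pos_of_ne_zero (NeZero.ne N'); omega)
      have h3 : ∑ j ∈ range l', ‖G (((0 : ℕ) : ZMod N') + ((N' + j : ℕ) : ZMod N') + 1).val -
          G (((0 : ℕ) : ZMod N') + ((N' + j : ℕ) : ZMod N')).val‖ =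
          ∑ j ∈ range l', ‖G (((0 : ℕ) : ZMod N') + (j : ZMod N') + 1).val -
          G (((0 : ℕ) : ZMod N') + (j : ZMod N')).val‖ := by
        refine sum_congr rfl fun j _ => ?_
        simp
      rw [h3]
      rw [Nat.sub_zero] at h1
      rw [Nat.cast_add (R := ℝ) N' l']
      have h4 : B * ((N' : ℝ) / X + 1) + 2 = (B / X + (B + 2) / N') * N' := by
        field_simp
        ring
      calc _ ≤ (B * ((N' : ℝ) / X + 1) + 2) + ((B / X + (B + 2) / N') * l' + B) := add_le_add h1 h2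
        _ = (B / X + (B + 2) / N') * (N' + l') + B := by rw [h4]; ring

theorem lpl_wrap {N' : ℕ} [NeZero N'] (G : ℕ → ℂ) (B X : ℝ) (hX : 0 < X) (hXN : X ≤ N')
    (hG : ∀ t, ‖G t‖ ≤ 1)
    (h : ∀ a l : ℕ, ∑ j ∈ range l, ‖G (a + j + 1) - G (a + j)‖ ≤ B * (l / X + 1)) :
    TV (2 * B + 2) X (fun y : ZMod N' => G y.val) := by
  have hB : 0 ≤ B := by simpa using h 0 0
  have hN : (0 : ℝ) < N' := by exact_mod_cast Nat.pos_of_ne_zero (NeZero.ne N')
  intro x l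
  have hx : ((x.val : ℕ) : ZMod N') = x := ZMod.natCast_zmod_val x
  have hxl : x.val < N' := ZMod.val_lt x
  rw [← hx]
  simp only
  generalize x.val = a at *
  rcases lt_or_ge (a + l) N' with hl | hl
  · rw [lpl_seg G a l hl]
    refine (h a l).trans ?_
    gcongr
    linarith
  · obtain ⟨l', rfl⟩ : ∃ l', l = (N' - a) + l' := ⟨l - (N' - a), by omega⟩
    rw [sum_range_add]
    have h1 := lpl_turn (N' := N') G B X hX hG h a hxl
    have h2 := lpl_wrap0 (N' := N') G B X hX hG h l'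
    have h3 : ∑ j ∈ range l', ‖G ((a : ZMod N') + ((N' - a + j : ℕ) : ZMod N') + 1).val -
          G ((a : ZMod N') + ((N' - a + j : ℕ) : ZMod N')).val‖ =
          ∑ j ∈ range l', ‖G (((0 : ℕ) : ZMod N') + (j : ZMod N') + 1).val -
          G (((0 : ℕ) : ZMod N') + (j : ZMod N')).val‖ := by
      refine sum_congr rfl fun j _ => ?_
      have : (a : ZMod N') + ((N' - a + j : ℕ) : ZMod N') = ((0 : ℕ) : ZMod N') + (j : ZMod N') := by
        rw [← Nat.cast_add, ← Nat.cast_add]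
        have : a + (N' - a + j) = N' + j := by omega
        rw [this]
        simp
      rw [this]
    rw [h3]
    have h4 : (B + 2) / N' ≤ (B + 2) / X := div_le_div_of_nonneg_left (by linarith) hX hXN
    have h5 : (B / X + (B + 2) / N') * l' + B ≤ (B / X + (B + 2) / X) * l' + B := by gcongr
    have h6 : 0 ≤ ((N' - a : ℕ) : ℝ) := by positivity
    have h7 : (0 : ℝ) ≤ (l' : ℝ) := by positivity
    rw [Nat.cast_add]
    generalize ((N' - a : ℕ) : ℝ) = y at *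
    have h8 : (2 * B + 2) * ((y + l') / X + 1) =
        (B * (y / X + 1) + 2) + ((B / X + (B + 2) / X) * l' + B) + (B + 2) * (y / X) := by
      field_simp
      ring
    have h9 : 0 ≤ (B + 2) * (y / X) := by positivity
    linarith

/-! ### the coefficient function on a cell -/

/-- the function on the cell, with the frequency `ϑ` of the cell removed -/
def cpf (X L κ : ℕ) (cc : ℕ → ℂ) (φ : ℕ → ℝ) (ϑ : ℝ) (w : ℕ) : ℂ :=
  if w < L then cc ((κ * L + w) / X) *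
    e ((φ ((κ * L + w) / X) - ϑ) * ((κ * L + w : ℕ) : ℝ)) else 0

theorem cpf_norm (X L κ : ℕ) (cc : ℕ → ℂ) (φ : ℕ → ℝ) (ϑ : ℝ) (hcc : ∀ j, ‖cc j‖ ≤ 1)
    (w : ℕ) : ‖cpf X L κ cc φ ϑ w‖ ≤ 1 := by
  unfold cpf
  split_ifs
  · rw [norm_mul, norm_e, mul_one]; exact hcc _
  · simp

theorem cpf_step (X q0 κ : ℕ) (hX : 1 ≤ X) (hq0 : 1 ≤ q0) (cc : ℕ → ℂ) (φ : ℕ → ℝ)
    (ϑ V : ℝ) (hV : 0 ≤ V) (hcc : ∀ j, ‖cc j‖ ≤ 1)
    (hφ : ∀ j, j / q0 = κ → cc j ≠ 0 → |φ j - ϑ| ≤ V) (w : ℕ) :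
    ‖cpf X (X * q0) κ cc φ ϑ (w + 1) - cpf X (X * q0) κ cc φ ϑ w‖ ≤
      2 * Real.pi * V + 2 * ((((κ * (X * q0) + (w + 1)) / X : ℕ) : ℝ)
        - (((κ * (X * q0) + w) / X : ℕ) : ℝ)) := by
  set L := X * q0 with hL
  have hmono : (κ * L + w) / X ≤ (κ * L + (w + 1)) / X := Nat.div_le_div_right (by omega)
  have hpi : 0 ≤ 2 * Real.pi * V := by positivity
  rcases Nat.eq_or_lt_of_le hmono with heq | hlt
  · rw [← heq, sub_self, mul_zero, add_zero]
    have hcell : w < L → w + 1 < L := by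
      intro hw
      by_contra hcon
      have hwL : w + 1 = L := by omega
      have h1 : κ * L + (w + 1) = X * ((κ + 1) * q0) := by rw [hwL, hL]; ring
      have h2 : (κ * L + (w + 1)) / X = (κ + 1) * q0 := by
        rw [h1, Nat.mul_div_cancel_left _ (by omega)]
      have h3 : (κ * L + w) / X < (κ + 1) * q0 := by
        rw [Nat.div_lt_iff_lt_mul (by omega)]
        have : (κ + 1) * q0 * X = X * ((κ + 1) * q0) := by ring
        rw [this, ← h1]; omega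
      omega
    by_cases hw : w < L
    · have hw1 := hcell hw
      unfold cpf
      rw [if_pos hw, if_pos hw1, ← heq, ← mul_sub, norm_mul]
      by_cases hc0 : cc ((κ * L + w) / X) = 0
      · rw [hc0]; simpa using hpi
      · have hj : (κ * L + w) / X / q0 = κ := by
          rw [Nat.div_div_eq_div_mul, ← hL]
          rw [Nat.div_eq_iff (by positivity)] 
          constructor
          · omega
          · omega
        have h1 := hφ _ hj hc0
        have h2 := norm_e_sub_e_le ((φ ((κ * L + w) / X) - ϑ) * ((κ * L + (w + 1) : ℕ) : ℝ))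
          ((φ ((κ * L + w) / X) - ϑ) * ((κ * L + w : ℕ) : ℝ))
        have h3 : (φ ((κ * L + w) / X) - ϑ) * ((κ * L + (w + 1) : ℕ) : ℝ) -
            (φ ((κ * L + w) / X) - ϑ) * ((κ * L + w : ℕ) : ℝ) = (φ ((κ * L + w) / X) - ϑ) := by
          push_cast; ring
        rw [h3] at h2
        calc _ ≤ 1 * (2 * Real.pi * |φ ((κ * L + w) / X) - ϑ|) :=
              mul_le_mul (hcc _) h2 (norm_nonneg _) zero_le_one
          _ ≤ 2 * Real.pi * V := by rw [one_mul]; gcongr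
    · unfold cpf
      rw [if_neg hw, if_neg (by omega)]
      simpa using hpi
  · have h1 : (1 : ℝ) ≤ (((κ * L + (w + 1)) / X : ℕ) : ℝ) - (((κ * L + w) / X : ℕ) : ℝ) := by
      have : (((κ * L + w) / X : ℕ) : ℝ) + 1 ≤ (((κ * L + (w + 1)) / X : ℕ) : ℝ) := by
        exact_mod_cast hlt
      linarith
    have h2 := norm_sub_le (cpf X L κ cc φ ϑ (w + 1)) (cpf X L κ cc φ ϑ w)
    have h3 := cpf_norm X L κ cc φ ϑ hcc (w + 1)
    have h4 := cpf_norm X L κ cc φ ϑ hcc w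
    linarith

theorem cpf_tv (X q0 κ : ℕ) (hX : 1 ≤ X) (hq0 : 1 ≤ q0) (cc : ℕ → ℂ) (φ : ℕ → ℝ)
    (ϑ W : ℝ) (hW : 0 ≤ W) (hcc : ∀ j, ‖cc j‖ ≤ 1)
    (hφ : ∀ j, j / q0 = κ → cc j ≠ 0 → |φ j - ϑ| ≤ W / X) (a l : ℕ) :
    ∑ j ∈ range l, ‖cpf X (X * q0) κ cc φ ϑ (a + j + 1) - cpf X (X * q0) κ cc φ ϑ (a + j)‖ ≤
      (2 * Real.pi * W + 2) * (l / X + 1) := by
  have hX0 : (0 : ℝ) < X := by exact_mod_cast hX
  have h1 : ∑ j ∈ range l, ‖cpf X (X * q0) κ cc φ ϑ (a + j + 1) - cpf X (X * q0) κ cc φ ϑ (a + j)‖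
      ≤ ∑ j ∈ range l, (2 * Real.pi * (W / X) + 2 * ((((κ * (X * q0) + a + (j + 1)) / X : ℕ) : ℝ)
        - (((κ * (X * q0) + a + j) / X : ℕ) : ℝ))) := by
    refine sum_le_sum fun j _ => ?_
    have := cpf_step X q0 κ hX hq0 cc φ ϑ (W / X) (by positivity) hcc hφ (a + j)
    rw [add_assoc a j 1] at this
    rw [add_assoc a j 1, add_assoc (κ * (X * q0)) a, add_assoc (κ * (X * q0)) a]
    exact this
  refine h1.trans ?_
  have h0 : ∑ j ∈ range l, ((((κ * (X * q0) + a + (j + 1)) / X : ℕ) : ℝ)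
        - (((κ * (X * q0) + a + j) / X : ℕ) : ℝ)) = (((κ * (X * q0) + a + l) / X : ℕ) : ℝ)
        - (((κ * (X * q0) + a) / X : ℕ) : ℝ) :=
    sum_range_sub (fun j => (((κ * (X * q0) + a + j) / X : ℕ) : ℝ)) l
  rw [sum_add_distrib, ← mul_sum (range l) _ 2, h0]
  simp only [sum_const, card_range, nsmul_eq_mul]
  have h2 : (((κ * (X * q0) + a + l) / X : ℕ) : ℝ) ≤ ((κ * (X * q0) + a + l : ℕ) : ℝ) / X :=
    Nat.cast_div_le
  have h3 : ((κ * (X * q0) + a : ℕ) : ℝ) / X < (((κ * (X * q0) + a) / X : ℕ) : ℝ) + 1 := by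
    have := Nat.lt_floor_add_one (((κ * (X * q0) + a : ℕ) : ℝ) / X)
    rwa [Nat.floor_div_eq_div] at this
  have h4 : ((κ * (X * q0) + a + l : ℕ) : ℝ) / X = ((κ * (X * q0) + a : ℕ) : ℝ) / X + l / X := by
    rw [← add_div]; push_cast; rfl
  have h5 : (2 * Real.pi * W + 2) * (l / X + 1) =
      l * (2 * Real.pi * (W / X)) + 2 * (l / X + 1) + 2 * Real.pi * W := by
    field_simp
    ring
  have h6 : 0 ≤ 2 * Real.pi * W := by positivity
  rw [h5]
  linarith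

/-! ### the other functions -/

theorem lpl_f0_tv {N : ℕ} [NeZero N] (f0 : ZMod N → ℂ) (hf0 : ∀ x, ‖f0 x‖ ≤ 1) (B Q ϑ W : ℝ)
    (hQ : 0 < Q) (hB : TV B Q f0) (hW : |ϑ| ≤ W / Q) (L : ℕ) (z : ZMod N) (a l : ℕ) :
    ∑ j ∈ range l, ‖(if a + j + 1 < L then f0 (z + ((a + j + 1 : ℕ) : ZMod N)) *
        e (ϑ * ((a + j + 1 : ℕ) : ℝ)) else 0) - (if a + j < L then f0 (z + ((a + j : ℕ) : ZMod N)) *
        e (ϑ * ((a + j : ℕ) : ℝ)) else 0)‖ ≤ (1 + B + 2 * Real.pi * W) * (l / Q + 1) := by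
  have hB0 := hB.nonneg
  have hstep : ∀ j : ℕ, ‖(if a + j + 1 < L then f0 (z + ((a + j + 1 : ℕ) : ZMod N)) *
        e (ϑ * ((a + j + 1 : ℕ) : ℝ)) else 0) - (if a + j < L then f0 (z + ((a + j : ℕ) : ZMod N)) *
        e (ϑ * ((a + j : ℕ) : ℝ)) else 0)‖ ≤
      ((if a + (j + 1) < L then (0 : ℝ) else 1) - (if a + j < L then (0 : ℝ) else 1)) +
      ‖f0 ((z + (a : ZMod N)) + (j : ZMod N) + 1) - f0 ((z + (a : ZMod N)) + (j : ZMod N))‖ +
      2 * Real.pi * (W / Q) := by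
    intro j
    have hn : 0 ≤ ‖f0 ((z + (a : ZMod N)) + (j : ZMod N) + 1) - f0 ((z + (a : ZMod N)) + (j : ZMod N))‖ :=
      norm_nonneg _
    have hWQ : 0 ≤ W / Q := (abs_nonneg _).trans hW
    have hn2 : 0 ≤ 2 * Real.pi * (W / Q) := by positivity
    rw [← add_assoc a j 1]
    by_cases h1 : a + j + 1 < L
    · have h2 : a + j < L := by omega
      rw [if_pos h1, if_pos h2, if_pos h1, if_pos h2]
      have e1 : z + ((a + j + 1 : ℕ) : ZMod N) = (z + (a : ZMod N)) + (j : ZMod N) + 1 := by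
        push_cast; ring
      have e2 : z + ((a + j : ℕ) : ZMod N) = (z + (a : ZMod N)) + (j : ZMod N) := by
        push_cast; ring
      rw [e1, e2]
      generalize (z + (a : ZMod N)) + (j : ZMod N) + 1 = p
      generalize (z + (a : ZMod N)) + (j : ZMod N) = q
      have h3 := norm_e_sub_e_le (ϑ * ((a + j + 1 : ℕ) : ℝ)) (ϑ * ((a + j : ℕ) : ℝ))
      have h4 : ϑ * ((a + j + 1 : ℕ) : ℝ) - ϑ * ((a + j : ℕ) : ℝ) = ϑ := by push_cast; ring
      rw [h4] at h3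
      have h5 : f0 p * e (ϑ * ((a + j + 1 : ℕ) : ℝ)) - f0 q * e (ϑ * ((a + j : ℕ) : ℝ)) =
          (f0 p - f0 q) * e (ϑ * ((a + j + 1 : ℕ) : ℝ)) +
          f0 q * (e (ϑ * ((a + j + 1 : ℕ) : ℝ)) - e (ϑ * ((a + j : ℕ) : ℝ))) := by ring
      rw [h5]
      refine (norm_add_le _ _).trans ?_
      rw [norm_mul, norm_mul, norm_e, mul_one]
      have h6 : ‖f0 q‖ * ‖e (ϑ * ((a + j + 1 : ℕ) : ℝ)) - e (ϑ * ((a + j : ℕ) : ℝ))‖ ≤
          1 * (2 * Real.pi * (W / Q)) := by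
        refine mul_le_mul (hf0 _) (h3.trans ?_) (norm_nonneg _) zero_le_one
        gcongr
      linarith
    · by_cases h2 : a + j < L
      · rw [if_neg h1, if_pos h2, if_neg h1, if_pos h2, zero_sub, norm_neg, norm_mul, norm_e, mul_one]
        linarith [hf0 (z + ((a + j : ℕ) : ZMod N))]
      · rw [if_neg h1, if_neg h2, if_neg h1, if_neg h2, sub_self, sub_self, norm_zero]
        linarith
  refine (sum_le_sum fun j _ => hstep j).trans ?_
  rw [sum_add_distrib, sum_add_distrib, sum_range_sub (fun j => if a + j < L then (0 : ℝ) else 1) l]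
  have h1 : ((if a + l < L then (0 : ℝ) else 1) - (if a + 0 < L then (0 : ℝ) else 1)) ≤ 1 := by
    split_ifs <;> norm_num
  have h2 := hB (z + (a : ZMod N)) l
  simp only [sum_const, card_range, nsmul_eq_mul]
  have hWQ : 0 ≤ W / Q := (abs_nonneg _).trans hW
  have hW0 : 0 ≤ W := by
    have := mul_nonneg hWQ hQ.le
    rwa [div_mul_cancel₀ _ hQ.ne'] at this
  have h3 : (l : ℝ) * (2 * Real.pi * (W / Q)) = 2 * Real.pi * W * (l / Q) := by ring
  rw [h3]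
  have h4 : (0 : ℝ) ≤ l / Q := by positivity
  have h5 : 0 ≤ Real.pi * W := by positivity
  nlinarith

theorem lpl_fi_tv {N : ℕ} (f : ZMod N → ℂ) (B Q : ℝ) (hB : TV B Q f)
    (z : ZMod N) (a l : ℕ) :
    ∑ j ∈ range l, ‖f (z + ((a + j + 1 : ℕ) : ZMod N)) - f (z + ((a + j : ℕ) : ZMod N))‖ ≤
      B * (l / Q + 1) := by
  have h := hB (z + (a : ZMod N)) l
  refine le_trans (le_of_eq (sum_congr rfl fun j _ => ?_)) h
  congr 2
  · congr 1
    push_cast; ring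
  · push_cast; ring_nf

/-! ### localisation to a short interval and a cell -/

/-- the average over a cell -/
def lplE2 {m N : ℕ} (S : Sys (m + 1)) (c : Fin (m + 1) → ℝ) (f0 : ZMod N → ℂ)
    (f : Fin m → ZMod N → ℂ) (X L κ : ℕ) (z : ZMod N) (cc : ℕ → ℂ) (φ : ℕ → ℝ) (ϑ : ℝ)
    (u' T' : ℕ) : ℂ :=
  𝔼 k ∈ Ico u' (u' + T'), 𝔼 y ∈ range L,
    f0 (z + (y : ZMod N)) * (∏ i : Fin m, f i (z + (y : ZMod N) + (S.a c i.castSucc k : ZMod N))) *
    (cpf X L κ cc φ ϑ (y + (S.a c (Fin.last m) k - S.a c (Fin.last m) u').toNat) *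
      e (ϑ * ((y : ℝ) + ((S.a c (Fin.last m) k - S.a c (Fin.last m) u').toNat : ℝ))))

theorem lpl_count (L b : ℕ) :
    ∑ t ∈ range L, (if t + b < L then (0 : ℝ) else 1) ≤ b := by
  have h1 : ∑ t ∈ range L, (if t + b < L then (0 : ℝ) else 1) =
      ∑ t ∈ range L, (if ¬ (t + b < L) then (1 : ℝ) else 0) := by
    refine sum_congr rfl fun t _ => ?_
    by_cases h : t + b < L <;> simp [h]
  rw [h1, sum_boole]
  have h2 : (range L).filter (fun t => ¬ (t + b < L)) ⊆ Ico (L - b) L := by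
    intro t ht
    rw [mem_filter, mem_range] at ht
    rw [mem_Ico]
    omega
  have h3 := card_le_card h2
  rw [Nat.card_Ico] at h3
  exact_mod_cast h3.trans (by omega)

theorem lpl_cell {m N : ℕ} [NeZero N] (S : Sys (m + 1)) (c : Fin (m + 1) → ℝ) (η : ℝ)
    (hη : 0 < η) (X q0 T' Bd : ℕ) (hX : 1 ≤ X) (hq0 : 1 ≤ q0) (hT' : 1 ≤ T')
    (hTT : (T' : ℝ) ≤ η / 2 * S.T) (hLN : ((X * q0 : ℕ) : ℝ) ≤ η / 4 * N)
    (hb : ∀ u' k, S.u ≤ u' → u' ≤ k → k < u' + T' → u' + T' ≤ S.u + S.T →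
      0 ≤ S.a c (Fin.last m) k - S.a c (Fin.last m) u' ∧
      S.a c (Fin.last m) k - S.a c (Fin.last m) u' ≤ Bd)
    (hBd : (Bd : ℝ) ≤ η / 8 * ((X * q0 : ℕ) : ℝ))
    (f0 : ZMod N → ℂ) (f : Fin m → ZMod N → ℂ) (hf0 : ∀ x, ‖f0 x‖ ≤ 1) (hf : ∀ i x, ‖f i x‖ ≤ 1)
    (r : ZMod N) (cc : ℕ → ℂ) (φ θ : ℕ → ℝ) (hcc : ∀ j, ‖cc j‖ ≤ 1)
    (h : η ≤ ‖form S c 1 f0 (Fin.snoc (α := fun _ => ZMod N → ℂ) f (bphase X r cc φ))‖) :
    ∃ u' κ : ℕ, S.u ≤ u' ∧ u' + T' ≤ S.u + S.T ∧ (κ + 1) * (X * q0) ≤ N ∧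
      η / 8 ≤ ‖lplE2 S c f0 f X (X * q0) κ
        (r + ((κ * (X * q0) : ℕ) : ZMod N) - (S.a c (Fin.last m) u' : ZMod N)) cc φ (θ κ) u' T'‖ := by
  set L := X * q0 with hL
  have hL1 : 1 ≤ L := Nat.mul_pos hX hq0
  have hL0 : (0 : ℝ) < L := by exact_mod_cast hL1
  set g := bphase X r cc φ with hg
  have hgn : ∀ x, ‖g x‖ ≤ 1 := by
    intro x
    rw [hg]
    unfold bphase
    rw [norm_mul, norm_e, mul_one]
    exact hcc _
  set F : ℕ → ZMod N → ℂ := fun k x => f0 x * ((∏ i : Fin m, f i (x + (S.a c i.castSucc k : ZMod N))) *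
    g (x + (S.a c (Fin.last m) k : ZMod N))) with hF
  have hFn : ∀ k x, ‖F k x‖ ≤ 1 := by
    intro k x
    simp only [hF]
    rw [norm_mul, norm_mul, norm_prod]
    have h1 : ∏ i : Fin m, ‖f i (x + (S.a c i.castSucc k : ZMod N))‖ ≤ 1 :=
      prod_le_one (fun _ _ => norm_nonneg _) fun i _ => hf i _
    have h2 : (∏ i : Fin m, ‖f i (x + (S.a c i.castSucc k : ZMod N))‖) *
      ‖g (x + (S.a c (Fin.last m) k : ZMod N))‖ ≤ 1 :=
      mul_le_one₀ h1 (norm_nonneg _) (hgn _)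
    exact mul_le_one₀ (hf0 _) (by positivity) h2
  have hform : form S c 1 f0 (Fin.snoc (α := fun _ => ZMod N → ℂ) f g) =
      𝔼 t ∈ range S.T, 𝔼 x, F (S.u + t) x := by
    unfold form Sys.I
    rw [← lpl_expect_Ico S.u S.T (fun k => 𝔼 x, F k x)]
    refine expect_congr rfl fun k _ => ?_
    rw [Pi.one_apply, one_mul]
    refine expect_congr rfl fun x _ => ?_
    simp only [hF]
    rw [Fin.prod_univ_castSucc]
    simp only [Fin.snoc_castSucc, Fin.snoc_last]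
  rw [hform] at h
  obtain ⟨j, hj, h1⟩ := lpl_cut (fun t => 𝔼 x, F (S.u + t) x)
    (fun k => norm_expect_le_of5 _ _ zero_le_one fun x _ => hFn _ x) S.T T' η hη hT' hTT h
  set u' := S.u + j * T' with hu'
  have hu1 : S.u ≤ u' := by omega
  have hu2 : u' + T' ≤ S.u + S.T := by
    have : (j + 1) * T' = j * T' + T' := by ring
    omega
  set z0 : ZMod N := r - (S.a c (Fin.last m) u' : ZMod N) with hz0
  have h2 : 𝔼 t ∈ range T', 𝔼 x, F (S.u + (j * T' + t)) x =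
      𝔼 v ∈ range N, 𝔼 t ∈ range T', F (u' + t) ((v : ZMod N) + z0) := by
    rw [expect_comm (range N)]
    refine expect_congr rfl fun t _ => ?_
    rw [← expect_shift (fun x => F (S.u + (j * T' + t)) x) z0, lpl_expect_range, hu', add_assoc]
  rw [h2] at h1
  obtain ⟨κ, hκ, h3⟩ := lpl_cut (fun v => 𝔼 t ∈ range T', F (u' + t) ((v : ZMod N) + z0))
    (fun k => norm_expect_le_of5 _ _ zero_le_one fun x _ => hFn _ _) N L (η / 2) (by positivity) hL1
    (by linarith) h1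
  refine ⟨u', κ, hu1, hu2, hκ, ?_⟩
  set ϑ := θ κ with hϑ
  rw [expect_comm] at h3
  set z : ZMod N := r + ((κ * L : ℕ) : ZMod N) - (S.a c (Fin.last m) u' : ZMod N) with hz
  have h4 : lplE2 S c f0 f X L κ z cc φ ϑ u' T' = 𝔼 t ∈ range T', 𝔼 y ∈ range L,
    f0 (z + (y : ZMod N)) * (∏ i : Fin m, f i (z + (y : ZMod N) + (S.a c i.castSucc (u' + t) : ZMod N))) *
    (cpf X L κ cc φ ϑ (y + (S.a c (Fin.last m) (u' + t) - S.a c (Fin.last m) u').toNat) *
      e (ϑ * ((y : ℝ) + ((S.a c (Fin.last m) (u' + t) - S.a c (Fin.last m) u').toNat : ℝ)))) := by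
    unfold lplE2
    rw [lpl_expect_Ico]
  have h5 : ‖(𝔼 t ∈ range T', 𝔼 y ∈ range L, F (u' + t) (((κ * L + y : ℕ) : ZMod N) + z0)) -
      e (ϑ * ((κ * L : ℕ) : ℝ)) * lplE2 S c f0 f X L κ z cc φ ϑ u' T'‖ ≤ η / 8 := by
    rw [h4, mul_expect, ← expect_sub_distrib]
    refine norm_expect_le_of5 _ _ (by positivity) fun t ht => ?_
    rw [mul_expect, ← expect_sub_distrib]
    have ht := mem_range.1 ht
    obtain ⟨hb1, hb2⟩ := hb u' (u' + t) hu1 (by omega) (by omega) hu2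
    obtain ⟨b, hbb⟩ := Int.eq_ofNat_of_zero_le hb1
    have hbB : b ≤ Bd := by omega
    rw [hbb]
    simp only [Int.toNat_natCast]
    have hy : ∀ y ∈ range L, ‖F (u' + t) (((κ * L + y : ℕ) : ZMod N) + z0) -
        e (ϑ * ((κ * L : ℕ) : ℝ)) * (f0 (z + (y : ZMod N)) *
        (∏ i : Fin m, f i (z + (y : ZMod N) + (S.a c i.castSucc (u' + t) : ZMod N))) *
        (cpf X L κ cc φ ϑ (y + b) * e (ϑ * ((y : ℝ) + (b : ℝ)))))‖ ≤
        (if y + b < L then (0 : ℝ) else 1) := by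
      intro y hyL
      have hyL := mem_range.1 hyL
      have e1 : ((κ * L + y : ℕ) : ZMod N) + z0 = z + (y : ZMod N) := by
        rw [hz0, hz]; push_cast; ring
      rw [e1]
      by_cases hw : y + b < L
      · rw [if_pos hw]
        apply le_of_eq
        rw [norm_eq_zero, sub_eq_zero]
        simp only [hF]
        have e2 : z + (y : ZMod N) + (S.a c (Fin.last m) (u' + t) : ZMod N) =
            r + ((κ * L + (y + b) : ℕ) : ZMod N) := by
          have : S.a c (Fin.last m) (u' + t) = S.a c (Fin.last m) u' + (b : ℤ) := by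
            linarith
          rw [this, hz]; push_cast; ring
        have hlt : κ * L + (y + b) < N := by
          have : (κ + 1) * L = κ * L + L := by ring
          omega
        have e3 : g (z + (y : ZMod N) + (S.a c (Fin.last m) (u' + t) : ZMod N)) =
            cc ((κ * L + (y + b)) / X) * e (φ ((κ * L + (y + b)) / X) * ((κ * L + (y + b) : ℕ) : ℝ)) := by
          rw [e2, hg]
          unfold bphase
          rw [add_sub_cancel_left, ZMod.val_natCast_of_lt hlt]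
        rw [e3]
        unfold cpf
        rw [if_pos hw]
        have e4 : e (φ ((κ * L + (y + b)) / X) * ((κ * L + (y + b) : ℕ) : ℝ)) =
            e (ϑ * ((κ * L : ℕ) : ℝ)) * (e ((φ ((κ * L + (y + b)) / X) - ϑ) * ((κ * L + (y + b) : ℕ) : ℝ)) *
            e (ϑ * ((y : ℝ) + (b : ℝ)))) := by
          rw [← e_add, ← e_add]
          congr 1
          push_cast; ring
        rw [e4]
        ring
      · rw [if_neg hw]
        unfold cpf
        rw [if_neg hw, zero_mul, mul_zero, mul_zero, sub_zero]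
        exact hFn _ _
    refine (norm_expect_le5 _ _).trans ?_
    rw [expect_eq_sum_div_card, card_range, div_le_iff₀ hL0]
    refine (sum_le_sum hy).trans ((lpl_count L b).trans ?_)
    have : (b : ℝ) ≤ Bd := by exact_mod_cast hbB
    linarith
  have h6 : ‖e (ϑ * ((κ * L : ℕ) : ℝ)) * lplE2 S c f0 f X L κ z cc φ ϑ u' T'‖ =
      ‖lplE2 S c f0 f X L κ z cc φ ϑ u' T'‖ := by
    rw [norm_mul, norm_e, one_mul]
  rw [← h6]
  have h7 := norm_sub_norm_le (𝔼 t ∈ range T', 𝔼 y ∈ range L, F (u' + t) (((κ * L + y : ℕ) : ZMod N) + z0))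
    (e (ϑ * ((κ * L : ℕ) : ℝ)) * lplE2 S c f0 f X L κ z cc φ ϑ u' T')
  linarith

/-! ### transport of a cell to `ZMod (4 L)` -/

theorem lpl_transport {m N : ℕ} (S : Sys (m + 1)) (c : Fin (m + 1) → ℝ)
    (f0 : ZMod N → ℂ) (f : Fin m → ZMod N → ℂ) (X L κ : ℕ) (z : ZMod N) (cc : ℕ → ℂ) (φ : ℕ → ℝ)
    (ϑ : ℝ) (u' T' : ℕ) (hL : 1 ≤ L) [NeZero (4 * L)]
    (hai : ∀ i : Fin m, ∀ k ∈ Ico u' (u' + T'), 0 ≤ S.a c i.castSucc k ∧ S.a c i.castSucc k ≤ L)
    (hb : ∀ k ∈ Ico u' (u' + T'), 0 ≤ S.a c (Fin.last m) k - S.a c (Fin.last m) u' ∧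
      S.a c (Fin.last m) k - S.a c (Fin.last m) u' ≤ L) :
    form (N := 4 * L) (S.sub u' T') c
      (fun k => e (ϑ * ((S.a c (Fin.last m) k - S.a c (Fin.last m) u' : ℤ) : ℝ)))
      (fun y => if y.val < L then f0 (z + (y.val : ZMod N)) * e (ϑ * (y.val : ℝ)) else 0)
      (Fin.snoc (α := fun _ => ZMod (4 * L) → ℂ) (fun i y => f i (z + (y.val : ZMod N)))
        (fun y => cpf X L κ cc φ ϑ (y - (S.a c (Fin.last m) u' : ZMod (4 * L))).val)) =
    1 / 4 * lplE2 S c f0 f X L κ z cc φ ϑ u' T' := by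
  unfold form lplE2
  rw [mul_expect]
  have hI : (S.sub u' T').I = Ico u' (u' + T') := rfl
  rw [hI]
  refine expect_congr rfl fun k hk => ?_
  obtain ⟨hb1, hb2⟩ := hb k hk
  obtain ⟨b, hbb⟩ := Int.eq_ofNat_of_zero_le hb1
  have hbL : b ≤ L := by omega
  have hval : ∀ (v n : ℕ) (a : ℤ), v < L → n ≤ L → a = (n : ℤ) →
      ((v : ZMod (4 * L)) + (a : ZMod (4 * L))).val = v + n := by
    intro v n a hv hn ha
    have : (v : ZMod (4 * L)) + (a : ZMod (4 * L)) = ((v + n : ℕ) : ZMod (4 * L)) := by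
      rw [ha]; push_cast; rfl
    rw [this, ZMod.val_natCast_of_lt (by omega)]
  rw [lpl_expect_range, expect_eq_sum_div_card, expect_eq_sum_div_card, card_range, card_range]
  have h4L : 4 * L = L + 3 * L := by ring
  rw [show range (4 * L) = range (L + 3 * L) from by rw [h4L], sum_range_add]
  have hzero : ∑ x ∈ range (3 * L), ((if (((L + x : ℕ) : ZMod (4 * L))).val < L then
      f0 (z + ((((L + x : ℕ) : ZMod (4 * L))).val : ZMod N)) *
        e (ϑ * ((((L + x : ℕ) : ZMod (4 * L))).val : ℝ)) else 0) *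
      ∏ i, (Fin.snoc (α := fun _ => ZMod (4 * L) → ℂ) (fun i y => f i (z + (y.val : ZMod N)))
        (fun y => cpf X L κ cc φ ϑ (y - (S.a c (Fin.last m) u' : ZMod (4 * L))).val) :
        Fin (m + 1) → ZMod (4 * L) → ℂ) i
        (((L + x : ℕ) : ZMod (4 * L)) + ((S.sub u' T').a c i k : ZMod (4 * L)))) = 0 := by
    refine sum_eq_zero fun x hx => ?_
    have hx := mem_range.1 hx
    rw [ZMod.val_natCast_of_lt (by omega), if_neg (by omega), zero_mul]
  rw [hzero, add_zero]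
  have hL0 : (L : ℂ) ≠ 0 := by
    have : L ≠ 0 := by omega
    exact_mod_cast this
  have hmain : ∀ v ∈ range L, e (ϑ * ((S.a c (Fin.last m) k - S.a c (Fin.last m) u' : ℤ) : ℝ)) *
      ((if ((v : ZMod (4 * L))).val < L then
      f0 (z + (((v : ZMod (4 * L))).val : ZMod N)) *
        e (ϑ * (((v : ZMod (4 * L))).val : ℝ)) else 0) *
      ∏ i, (Fin.snoc (α := fun _ => ZMod (4 * L) → ℂ) (fun i y => f i (z + (y.val : ZMod N)))
        (fun y => cpf X L κ cc φ ϑ (y - (S.a c (Fin.last m) u' : ZMod (4 * L))).val) :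
        Fin (m + 1) → ZMod (4 * L) → ℂ) i
        ((v : ZMod (4 * L)) + ((S.sub u' T').a c i k : ZMod (4 * L)))) =
      f0 (z + (v : ZMod N)) * (∏ i : Fin m, f i (z + (v : ZMod N) + (S.a c i.castSucc k : ZMod N))) *
      (cpf X L κ cc φ ϑ (v + (S.a c (Fin.last m) k - S.a c (Fin.last m) u').toNat) *
      e (ϑ * ((v : ℝ) + ((S.a c (Fin.last m) k - S.a c (Fin.last m) u').toNat : ℝ)))) := by
    intro v hv
    have hv := mem_range.1 hv
    rw [ZMod.val_natCast_of_lt (by omega), if_pos hv, Fin.prod_univ_castSucc]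
    simp only [Fin.snoc_castSucc, Fin.snoc_last]
    have e1 : ∀ i : Fin m, f i (z + ((((v : ZMod (4 * L)) +
        ((S.sub u' T').a c i.castSucc k : ZMod (4 * L))).val : ℕ) : ZMod N)) =
        f i (z + (v : ZMod N) + (S.a c i.castSucc k : ZMod N)) := by
      intro i
      obtain ⟨h1, h2⟩ := hai i k hk
      obtain ⟨n, hn⟩ := Int.eq_ofNat_of_zero_le h1
      have h3 : (S.sub u' T').a c i.castSucc k = (n : ℤ) := hn
      rw [hval v n _ hv (by omega) h3, hn]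
      congr 1
      push_cast; ring
    simp only [e1]
    have e2 : (v : ZMod (4 * L)) + ((S.sub u' T').a c (Fin.last m) k : ZMod (4 * L)) -
        (S.a c (Fin.last m) u' : ZMod (4 * L)) = (v : ZMod (4 * L)) +
        ((S.a c (Fin.last m) k - S.a c (Fin.last m) u' : ℤ) : ZMod (4 * L)) := by
      have : (S.sub u' T').a c (Fin.last m) k = S.a c (Fin.last m) k := rfl
      rw [this]; push_cast; ring
    rw [e2, hval v b _ hv hbL hbb, hbb]
    simp only [Int.toNat_natCast, Int.cast_natCast]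
    have e3 : e (ϑ * ((v : ℝ) + (b : ℝ))) = e (ϑ * (v : ℝ)) * e (ϑ * (b : ℝ)) := by
      rw [← e_add]; congr 1; ring
    rw [e3]
    ring
  rw [← mul_div_assoc, mul_sum, sum_congr rfl hmain]
  push_cast
  field_simp

/-! ### the sequences -/

theorem lpl_rpow_sub (c s t : ℝ) (hc : 0 < c) (h1 : 1 ≤ s) (hst : s ≤ t) (ht : t ≤ 3) :
    t ^ c - s ^ c ≤ c * 3 ^ c * (t - s) := by
  refine (convex_Icc s t).image_sub_le_mul_sub_of_deriv_le (f := fun x => x ^ c) ?_ ?_ ?_ s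
    ⟨le_rfl, hst⟩ t ⟨hst, le_rfl⟩ hst
  · intro x hx
    exact (Real.continuousAt_rpow_const x c (Or.inl (by linarith [hx.1]))).continuousWithinAt
  · intro x hx
    rw [interior_Icc] at hx
    exact (Real.differentiableAt_rpow_const_of_ne c (by linarith [hx.1])).differentiableWithinAt
  · intro x hx
    rw [interior_Icc] at hx
    have hx1 : 1 ≤ x := by linarith [hx.1]
    rw [Real.deriv_rpow_const]
    have h2 : x ^ (c - 1) ≤ x ^ c := Real.rpow_le_rpow_of_exponent_le hx1 (by linarith)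
    have h3 : x ^ c ≤ 3 ^ c := Real.rpow_le_rpow (by linarith) (by linarith [hx.2]) hc.le
    exact mul_le_mul_of_nonneg_left (h2.trans h3) hc.le

theorem lpl_b {m : ℕ} (S : Sys m) (c : Fin m → ℝ) (i : Fin m) (hc : 0 < c i)
    (hρ0 : 0 ≤ S.ρ) (hρ1 : S.ρ ≤ 1) (hD : 1 ≤ S.D) (hP : 0 ≤ S.P i) (T' u' k : ℕ)
    (hu : S.D ≤ u') (huk : u' ≤ k) (hk : k < u' + T') (h2 : (u' : ℝ) + T' ≤ 2 * S.D) :
    (0 ≤ S.a c i k - S.a c i u' ∧
      ((S.a c i k - S.a c i u' : ℤ) : ℝ) ≤ S.P i * (c i * 3 ^ (c i) * (T' / S.D)) + 1) ∧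
    0 ≤ S.a c i k ∧ ((S.a c i k : ℤ) : ℝ) ≤ S.P i * 3 ^ (c i) := by
  have hD0 : 0 < S.D := by linarith
  have hkr : (k : ℝ) < u' + T' := by exact_mod_cast hk
  have hukr : (u' : ℝ) ≤ k := by exact_mod_cast huk
  have ht1 : 1 ≤ S.t u' := by
    unfold Sys.t
    rw [le_div_iff₀ hD0]; linarith
  have htt : S.t u' ≤ S.t k := by
    unfold Sys.t
    gcongr
  have ht3 : S.t k ≤ 3 := by
    unfold Sys.t
    rw [div_le_iff₀ hD0]; linarith
  have htd : S.t k - S.t u' ≤ T' / S.D := by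
    unfold Sys.t
    rw [← sub_div]
    gcongr
    linarith
  have h3 := lpl_rpow_sub (c i) (S.t u') (S.t k) hc ht1 htt ht3
  have hmono : S.P i * S.t u' ^ c i ≤ S.P i * S.t k ^ c i := by
    gcongr
  have htk : S.t k ^ c i ≤ 3 ^ c i := Real.rpow_le_rpow (by linarith) ht3 hc.le
  refine ⟨⟨?_, ?_⟩, ?_, ?_⟩
  · rw [sub_nonneg]
    exact Int.floor_le_floor hmono
  · push_cast
    have h4 : ((S.a c i k : ℤ) : ℝ) ≤ S.P i * S.t k ^ c i := Int.floor_le _
    have h5 : S.P i * S.t u' ^ c i < ((S.a c i u' : ℤ) : ℝ) + 1 := Int.lt_floor_add_one _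
    have h6 : S.P i * (S.t k ^ c i - S.t u' ^ c i) ≤ S.P i * (c i * 3 ^ (c i) * (T' / S.D)) := by
      gcongr
      exact h3.trans (by gcongr)
    linarith
  · exact Int.floor_nonneg.2 (mul_nonneg hP (Real.rpow_nonneg (by linarith) _))
  · have h4 : ((S.a c i k : ℤ) : ℝ) ≤ S.P i * S.t k ^ c i := Int.floor_le _
    exact h4.trans (by gcongr)

theorem lpl_cell_index (X q0 κ w : ℕ) (hX : 1 ≤ X) (hq0 : 1 ≤ q0) (hw : w < X * q0) :
    (κ * (X * q0) + w) / X / q0 = κ := by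
  have : 0 < X * q0 := Nat.mul_pos hX hq0
  rw [Nat.div_div_eq_div_mul, Nat.div_eq_iff this]
  constructor
  · omega
  · omega

/-! ### the exponential sum on a window -/

theorem lpl_final {m : ℕ} (S : Sys (m + 1)) (c : Fin (m + 1) → ℝ) (θ' : Fin (m + 1) → ℝ)
    (ϑ A B E a' : ℝ) (u' T' K : ℕ) (hT' : 1 ≤ T') (hDu : S.D ≤ u')
    (hDu2 : (u' : ℝ) + T' ≤ 2 * S.D) (hKD : (K : ℝ) ≤ S.D)
    (hE : E < A / 2) (hϑ : 2 * Real.pi * |ϑ| ≤ A / 2)
    (HE : ∀ v : Fin (m + 1) → ℝ, (∀ i, |v i| ≤ a') → (∃ i, B ≤ |v i|) → ∀ k : ℕ, S.D ≤ k →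
      (k : ℝ) + K ≤ 4 * S.D →
      ‖𝔼 k' ∈ Ico k (k + K), e (∑ i, v i * (((k' : ℝ) + S.ρ) / S.D) ^ (c i))‖ ≤ E)
    (hv : ∀ i, |θ' i * S.P i| + |ϑ * S.P i| ≤ a')
    (h : A ≤ 𝔼 k ∈ Ico u' (u' + T'), ‖𝔼 j ∈ range K,
      e (ϑ * ((S.a c (Fin.last m) (k + j) - S.a c (Fin.last m) u' : ℤ) : ℝ)) *
        e (∑ i, θ' i * S.P i * (S.t (k + j)) ^ (c i))‖) :
    |θ' (Fin.last m) * S.P (Fin.last m) + ϑ * S.P (Fin.last m)| < B := by
  by_contra hcon
  rw [not_lt] at hcon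
  obtain ⟨k, hk, hk2⟩ := exists_le_of_le_expect (nonempty_Ico.2 (by omega)) h
  obtain ⟨hk3, hk4⟩ := mem_Ico.1 hk
  have hk3r : (u' : ℝ) ≤ k := by exact_mod_cast hk3
  have hk4r : (k : ℝ) ≤ u' + T' := by exact_mod_cast hk4.le
  obtain ⟨v, hvdef⟩ : ∃ v : Fin (m + 1) → ℝ, v = fun i => θ' i * S.P i +
    (if i = Fin.last m then ϑ * S.P i else 0) := ⟨_, rfl⟩
  have hv1 : ∀ i, |v i| ≤ a' := by
    intro i
    rw [hvdef]
    refine (abs_add_le _ _).trans (le_trans ?_ (hv i))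
    split_ifs
    · exact le_rfl
    · rw [abs_zero]
      have := abs_nonneg (ϑ * S.P i)
      linarith
  have hv2 : ∃ i, B ≤ |v i| := by
    refine ⟨Fin.last m, ?_⟩
    rw [hvdef]
    simpa using hcon
  have h1 := HE v hv1 hv2 k (hDu.trans hk3r) (by linarith)
  rw [lpl_expect_Ico] at h1
  obtain ⟨w, hw⟩ : ∃ w : ℂ, w = e (-(ϑ * ((S.a c (Fin.last m) u' : ℤ) : ℝ))) := ⟨_, rfl⟩
  have hwn : ‖w‖ = 1 := by rw [hw, norm_e]
  have h2 : ‖(𝔼 j ∈ range K,
      e (ϑ * ((S.a c (Fin.last m) (k + j) - S.a c (Fin.last m) u' : ℤ) : ℝ)) *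
        e (∑ i, θ' i * S.P i * (S.t (k + j)) ^ (c i))) -
      w * 𝔼 j ∈ range K, e (∑ i, v i * ((((k + j : ℕ) : ℝ) + S.ρ) / S.D) ^ (c i))‖ ≤ A / 2 := by
    rw [mul_expect, ← expect_sub_distrib]
    refine norm_expect_le_of5 _ _ ((by positivity : (0:ℝ) ≤ 2 * Real.pi * |ϑ|).trans hϑ)
      fun j _ => le_trans ?_ hϑ
    have e1 : ∑ i, v i * ((((k + j : ℕ) : ℝ) + S.ρ) / S.D) ^ (c i) =
        ∑ i, θ' i * S.P i * (S.t (k + j)) ^ (c i) +
        ϑ * (S.P (Fin.last m) * (S.t (k + j)) ^ (c (Fin.last m))) := by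
      rw [hvdef]
      have : ∀ i, (θ' i * S.P i + (if i = Fin.last m then ϑ * S.P i else 0)) *
          ((((k + j : ℕ) : ℝ) + S.ρ) / S.D) ^ (c i) =
          θ' i * S.P i * (S.t (k + j)) ^ (c i) +
          (if i = Fin.last m then ϑ * (S.P i * (S.t (k + j)) ^ (c i)) else 0) := by
        intro i
        unfold Sys.t
        split_ifs <;> ring
      simp only [this]
      rw [sum_add_distrib]
      simp
    rw [e1, e_add]
    have e2 : e (ϑ * ((S.a c (Fin.last m) (k + j) - S.a c (Fin.last m) u' : ℤ) : ℝ)) =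
        w * e (ϑ * ((S.a c (Fin.last m) (k + j) : ℤ) : ℝ)) := by
      rw [hw, ← e_add]
      congr 1
      push_cast; ring
    rw [e2]
    have e3 : w * e (ϑ * ((S.a c (Fin.last m) (k + j) : ℤ) : ℝ)) *
        e (∑ i, θ' i * S.P i * (S.t (k + j)) ^ (c i)) -
        w * (e (∑ i, θ' i * S.P i * (S.t (k + j)) ^ (c i)) *
        e (ϑ * (S.P (Fin.last m) * (S.t (k + j)) ^ (c (Fin.last m))))) =
        w * e (∑ i, θ' i * S.P i * (S.t (k + j)) ^ (c i)) *
        (e (ϑ * ((S.a c (Fin.last m) (k + j) : ℤ) : ℝ)) -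
        e (ϑ * (S.P (Fin.last m) * (S.t (k + j)) ^ (c (Fin.last m))))) := by ring
    rw [e3, norm_mul, norm_mul, hwn, norm_e, one_mul, one_mul]
    refine (norm_e_sub_e_le _ _).trans ?_
    rw [← mul_sub, abs_mul]
    have h5 : |((S.a c (Fin.last m) (k + j) : ℤ) : ℝ) -
        S.P (Fin.last m) * (S.t (k + j)) ^ (c (Fin.last m))| ≤ 1 := by
      unfold Sys.a
      have h6 := Int.floor_le (S.P (Fin.last m) * (S.t (k + j)) ^ (c (Fin.last m)))
      have h7 := Int.lt_floor_add_one (S.P (Fin.last m) * (S.t (k + j)) ^ (c (Fin.last m)))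
      rw [abs_le]
      constructor <;> linarith
    calc 2 * Real.pi * (|ϑ| * |((S.a c (Fin.last m) (k + j) : ℤ) : ℝ) -
        S.P (Fin.last m) * (S.t (k + j)) ^ (c (Fin.last m))|) ≤ 2 * Real.pi * (|ϑ| * 1) := by
          gcongr
      _ = 2 * Real.pi * |ϑ| := by ring
  have h3 := norm_sub_norm_le (𝔼 j ∈ range K,
      e (ϑ * ((S.a c (Fin.last m) (k + j) - S.a c (Fin.last m) u' : ℤ) : ℝ)) *
        e (∑ i, θ' i * S.P i * (S.t (k + j)) ^ (c i)))
      (w * 𝔼 j ∈ range K, e (∑ i, v i * ((((k + j : ℕ) : ℝ) + S.ρ) / S.D) ^ (c i)))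
  rw [norm_mul, hwn, one_mul] at h3
  linarith

/-! ### classes of the transported functions -/

theorem lpl_classes {N : ℕ} [NeZero N] (X q0 Q : ℕ) (hX : 1 ≤ X) (hq0 : 1 ≤ q0) (hQX : Q ≤ X)
    (hQ : 0 < Q) (I W M : ℝ) (hI : 2 ≤ I) (hIW : I ≤ W) (hWM : 32 * W ≤ M) (z : ZMod N) (ϑ : ℝ)
    (hϑQ : |ϑ| ≤ 2 * W / Q) [NeZero (4 * (X * q0))] (f0 : ZMod N → ℂ) (hf0 : Adm I Q f0) :
    Adm (N := 4 * (X * q0)) M Q (fun y => if y.val < X * q0 then
      f0 (z + (y.val : ZMod N)) * e (ϑ * (y.val : ℝ)) else 0) := by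
  have hQ0 : (0 : ℝ) < Q := by exact_mod_cast hQ
  have hQN' : (Q : ℝ) ≤ ((4 * (X * q0) : ℕ) : ℝ) := by
    have : Q ≤ 4 * (X * q0) := by nlinarith
    exact_mod_cast this
  have hb0 : ∀ t : ℕ, ‖(if t < X * q0 then f0 (z + (t : ZMod N)) * e (ϑ * (t : ℝ)) else 0)‖ ≤ 1 := by
    intro t
    split_ifs
    · rw [norm_mul, norm_e, mul_one]; exact hf0.bdd _
    · simp
  refine ⟨fun y => hb0 y.val, ?_⟩
  have h1 := lpl_wrap (N' := 4 * (X * q0))
    (fun t => if t < X * q0 then f0 (z + (t : ZMod N)) * e (ϑ * (t : ℝ)) else 0)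
    (1 + I + 2 * Real.pi * (2 * W)) Q hQ0 hQN' hb0
    (fun a l => lpl_f0_tv f0 hf0.bdd I Q ϑ (2 * W) hQ0 hf0.tv hϑQ (X * q0) z a l)
  refine h1.mono ?_ hQ0 le_rfl
  refine le_trans ?_ hWM
  have hπ : Real.pi ≤ 3.15 := Real.pi_lt_d2.le
  have h2 : Real.pi * W ≤ 3.15 * W := mul_le_mul_of_nonneg_right hπ (by linarith)
  linarith

theorem lpl_classes_i {N : ℕ} [NeZero N] (X q0 Q : ℕ) (hX : 1 ≤ X) (hq0 : 1 ≤ q0) (hQX : Q ≤ X)
    (hQ : 0 < Q) (I W M : ℝ) (hI : 2 ≤ I) (hIW : I ≤ W) (hWM : 32 * W ≤ M) (z : ZMod N)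
    [NeZero (4 * (X * q0))] (f : ZMod N → ℂ) (hf : Adm I Q f) :
    Adm (N := 4 * (X * q0)) M Q (fun y => f (z + (y.val : ZMod N))) := by
  have hQ0 : (0 : ℝ) < Q := by exact_mod_cast hQ
  have hQN' : (Q : ℝ) ≤ ((4 * (X * q0) : ℕ) : ℝ) := by
    have : Q ≤ 4 * (X * q0) := by nlinarith
    exact_mod_cast this
  refine ⟨fun y => hf.bdd _, ?_⟩
  have h1 := lpl_wrap (N' := 4 * (X * q0)) (fun t => f (z + (t : ZMod N))) I Q hQ0 hQN'
    (fun t => hf.bdd _) (fun a l => lpl_fi_tv f I Q hf.tv z a l)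
  refine h1.mono ?_ hQ0 le_rfl
  refine le_trans ?_ hWM
  linarith

theorem lpl_classes_c (X q0 κ : ℕ) (hX : 1 ≤ X) (hq0 : 1 ≤ q0) (W M : ℝ) (hW : 2 ≤ W)
    (hWM : 32 * W ≤ M) (cc : ℕ → ℂ) (φ : ℕ → ℝ) (ϑ : ℝ) (hcc : ∀ j, ‖cc j‖ ≤ 1)
    (hφ : ∀ j, j / q0 = κ → cc j ≠ 0 → |φ j - ϑ| ≤ W / X) [NeZero (4 * (X * q0))]
    (t : ZMod (4 * (X * q0))) :
    Adm (N := 4 * (X * q0)) M X (fun y => cpf X (X * q0) κ cc φ ϑ (y - t).val) := by
  have hX0 : (0 : ℝ) < X := by exact_mod_cast hX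
  have hXN' : (X : ℝ) ≤ ((4 * (X * q0) : ℕ) : ℝ) := by
    have : X ≤ 4 * (X * q0) := by nlinarith
    exact_mod_cast this
  have h1 := lpl_wrap (N' := 4 * (X * q0)) (cpf X (X * q0) κ cc φ ϑ)
    (2 * Real.pi * W + 2) X hX0 hXN' (cpf_norm X (X * q0) κ cc φ ϑ hcc)
    (cpf_tv X q0 κ hX hq0 cc φ ϑ W (by linarith) hcc hφ)
  have h2 : Adm (N := 4 * (X * q0)) M X (fun y => cpf X (X * q0) κ cc φ ϑ y.val) := by
    refine ⟨fun y => cpf_norm X (X * q0) κ cc φ ϑ hcc _, ?_⟩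
    refine h1.mono ?_ hX0 le_rfl
    refine le_trans ?_ hWM
    have hπ : Real.pi ≤ 3.15 := Real.pi_lt_d2.le
    have h2 : Real.pi * W ≤ 3.15 * W := mul_le_mul_of_nonneg_right hπ (by linarith)
    linarith
  have h3 := h2.shift (-t)
  simpa only [sub_eq_add_neg] using h3

end

end Pool.Agent.Helper57.NX
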