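import Pool.Agent.Helper99.NX.LpLocalAux

/-!
# Project NX, NX-15: block phases, localisation to one cell
-/

set_option autoImplicit false

open Finset
open scoped BigOperators ComplexConjugate

namespace Pool.Agent.Helper57.NX

noncomputable section

/-- **NX-15.** Block phases: localisation to one cell. -/
theorem lp_local (hES : ES0) (m : ℕ) (c : Fin (m + 1) → ℝ) (hc : StrictMono c) (hc0 : ∀ i, 0 < c i)
    (hcn : ∀ i (n : ℕ), c i ≠ n) (s : ℝ) (hs0 : 0 ≤ s) (hs : s < c (Fin.last m))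
    (hD : ∀ ε : ℝ, 0 < ε → DsP m c s ε) :
    ∃ ε0 : ℝ, 0 < ε0 ∧ ∀ ε : ℝ, 0 < ε → ε ≤ ε0 → ∀ n : ℕ,
    ∃ x0 : ℝ, 0 < x0 ∧ ∃ C : ℕ, ∃ σ : ℝ, 0 < σ ∧ ∃ D0 : ℝ,
    ∀ (S : Sys (m + 1)) (N : ℕ) [NeZero N], D0 ≤ S.D → Good S c N x0 →
    ∀ δ : ℝ, S.D ^ (-σ) ≤ δ → δ ≤ 1 / 2 →
    ∀ X : ℕ, S.Q ≤ X → S.Q * S.D ^ (s - σ) ≤ (X : ℝ) → (X : ℝ) ≤ S.Q * S.D ^ s →
    ∀ q0 : ℕ, 1 ≤ q0 → S.P (Fin.last m) * S.D ^ (-ε) / 2 ≤ (X : ℝ) * q0 →
      (X : ℝ) * q0 ≤ S.P (Fin.last m) * S.D ^ (-ε) →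
    ∀ (f0 : ZMod N → ℂ) (f : Fin m → ZMod N → ℂ),
    Adm δ⁻¹ S.Q f0 → (∀ i, Adm δ⁻¹ S.Q (f i)) →
    ∀ (r : ZMod N) (cc : ℕ → ℂ) (φ : ℕ → ℝ) (θ : ℕ → ℝ), (∀ j, ‖cc j‖ ≤ 1) →
    (∀ j, |φ j| ≤ δ⁻¹ / S.Q) → (∀ j, cc j ≠ 0 → |φ j - θ (j / q0)| ≤ δ⁻¹ ^ n / X) →
    δ ^ n ≤ ‖form S c 1 f0 (Fin.snoc (α := fun _ => ZMod N → ℂ) f (bphase X r cc φ))‖ →
    ∃ j, cc j ≠ 0 ∧ |φ j| ≤ δ⁻¹ ^ C / X := by
  set cl := c (Fin.last m) with hcl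
  have hcl0 : 0 < cl := hc0 _
  obtain ⟨gap, hgap0, hgap⟩ : ∃ g : ℝ, 0 < g ∧ ∀ i : Fin m, g ≤ cl - c i.castSucc := by
    rcases isEmpty_or_nonempty (Fin m) with he | he
    · exact ⟨1, one_pos, fun i => (he.false i).elim⟩
    · obtain ⟨i0, hi0⟩ := Finite.exists_min (fun i : Fin m => cl - c i.castSucc)
      exact ⟨cl - c i0.castSucc, sub_pos.2 (hc (Fin.castSucc_lt_last i0)), hi0⟩
  obtain ⟨xE, hxE, σE, hσE, DE, HE⟩ := hES (m + 1) 0 c hc.injective hcn 4 (cl + 5) ((cl - s) / 8)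
    (by norm_num) (by linarith)
  obtain ⟨x2, hx2, C2, σ2, hσ2, D2, H2⟩ := hD (min (xE / 2) (1 / 2)) (by positivity)
  have hmin0 : 0 < min (min (x2 / 4) ((cl - s) / 8)) (min (gap / 8) (1 / 8)) := by
    have : 0 < (cl - s) / 8 := by linarith
    positivity
  refine ⟨min (min (x2 / 4) ((cl - s) / 8)) (min (gap / 8) (1 / 8)), hmin0,
    fun ε hε hεle n0 => ?_⟩
  have hε1 : ε ≤ x2 / 4 := hεle.trans ((min_le_left _ _).trans (min_le_left _ _))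
  have hε2 : ε ≤ (cl - s) / 8 := hεle.trans ((min_le_left _ _).trans (min_le_right _ _))
  have hε3 : ε ≤ gap / 8 := hεle.trans ((min_le_right _ _).trans (min_le_left _ _))
  have hε4 : ε ≤ 1 / 8 := hεle.trans ((min_le_right _ _).trans (min_le_right _ _))
  obtain ⟨n, hn⟩ : ∃ n, n = n0 + 1 := ⟨_, rfl⟩
  obtain ⟨p, hp⟩ : ∃ p, p = (n + 5) * (C2 + 1) := ⟨_, rfl⟩
  have hpn : n + 5 ≤ p := by rw [hp]; nlinarith
  have hpC : (n + 5) * C2 ≤ p := by rw [hp]; nlinarith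
  have hp0 : 0 < p := by omega
  obtain ⟨Z, hZ⟩ : ∃ Z, Z = min (min σ2 (ε / 8)) (min (1 / 2) (σE / 2)) := ⟨_, rfl⟩
  have hZ0 : 0 < Z := by rw [hZ]; positivity
  have hZ1 : Z ≤ σ2 := by rw [hZ]; exact (min_le_left _ _).trans (min_le_left _ _)
  have hZ2 : Z ≤ ε / 8 := by rw [hZ]; exact (min_le_left _ _).trans (min_le_right _ _)
  have hZ3 : Z ≤ 1 / 2 := by rw [hZ]; exact (min_le_right _ _).trans (min_le_left _ _)
  have hZ4 : Z ≤ σE / 2 := by rw [hZ]; exact (min_le_right _ _).trans (min_le_right _ _)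
  obtain ⟨κ1, hκ1⟩ : ∃ κ1, κ1 = cl * 3 ^ cl := ⟨_, rfl⟩
  have hκ10 : 0 < κ1 := by rw [hκ1]; positivity
  obtain ⟨K0, hK0⟩ : ∃ K0 : ℝ, K0 = 16 * (2 * κ1 + 1) + 2 * 3 ^ cl + 4 := ⟨_, rfl⟩
  have h3cl : (0 : ℝ) < 3 ^ cl := by positivity
  have hev : ∀ᶠ D : ℝ in Filter.atTop, 26 ≤ D ∧ D2 ≤ D ∧ DE ≤ D ∧ K0 ≤ D ^ (ε / 2) ∧
      3 ≤ D ^ (σE / 2) ∧ 2 ≤ D ^ (xE / 2) := by
    refine (Filter.eventually_ge_atTop _).and ((Filter.eventually_ge_atTop _).and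
      ((Filter.eventually_ge_atTop _).and (((tendsto_rpow_atTop (by positivity)).eventually_ge_atTop _).and
      (((tendsto_rpow_atTop (by positivity)).eventually_ge_atTop _).and
      ((tendsto_rpow_atTop (by positivity)).eventually_ge_atTop _)))))
  obtain ⟨D0, hD0⟩ := Filter.eventually_atTop.1 hev
  have hp0r : (0 : ℝ) < p := by exact_mod_cast hp0
  refine ⟨ε / 4, by positivity, p + 2, Z / p, by positivity, D0, ?_⟩
  intro S N _ hSD hG δ hδσ hδ2 X hQX hX1 hX2 q0 hq0 hXq1 hXq2 f0 f hf0 hf r cc φ θ hcc hφ1 hφ2 hform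
  obtain ⟨hD26, hDD2, hDDE, hDK0, hDσE, hDxE⟩ := hD0 S.D hSD
  have hD0 : 0 < S.D := by linarith
  have hD1 : 1 ≤ S.D := by linarith
  have hδ0 : 0 < δ := lt_of_lt_of_le (Real.rpow_pos_of_pos hD0 _) hδσ
  have hδ1 : δ ≤ 1 := by linarith
  -- powers of `δ`
  have hδp : S.D ^ (-Z) ≤ δ ^ p := by
    have h1 : (S.D ^ (-(Z / p))) ^ p = S.D ^ (-Z) := by
      rw [← Real.rpow_mul_natCast hD0.le]
      congr 1
      field_simp
    rw [← h1]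
    exact pow_le_pow_left₀ (Real.rpow_nonneg hD0.le _) hδσ p
  have hδq : ∀ q, q ≤ p → ∀ y : ℝ, Z ≤ y → S.D ^ (-y) ≤ δ ^ q := by
    intro q hq y hy
    calc S.D ^ (-y) ≤ S.D ^ (-Z) := Real.rpow_le_rpow_of_exponent_le hD1 (by linarith)
      _ ≤ δ ^ p := hδp
      _ ≤ δ ^ q := pow_le_pow_of_le_one hδ0.le hδ1 hq
  have hexp : ∀ a b : ℝ, a ≤ b → S.D ^ a ≤ S.D ^ b := fun a b hab =>
    Real.rpow_le_rpow_of_exponent_le hD1 hab
  have hadd : ∀ a b : ℝ, S.D ^ a * S.D ^ b = S.D ^ (a + b) := fun a b => (Real.rpow_add hD0 a b).symm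
  have hK : ∀ k a b : ℝ, k ≤ K0 → a + ε / 2 ≤ b → k * S.D ^ a ≤ S.D ^ b := by
    intro k a b hk hab
    calc k * S.D ^ a ≤ S.D ^ (ε / 2) * S.D ^ a :=
          mul_le_mul_of_nonneg_right (hk.trans hDK0) (Real.rpow_nonneg hD0.le _)
      _ = S.D ^ (ε / 2 + a) := hadd _ _
      _ ≤ S.D ^ b := hexp _ _ (by linarith)
  have hpos : ∀ a : ℝ, 0 < S.D ^ a := fun a => Real.rpow_pos_of_pos hD0 a
  -- sizes
  have hQ2 : S.D ^ (2 : ℝ) ≤ (S.Q : ℝ) := hG.Q1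
  have hQ0 : (0 : ℝ) < S.Q := (hpos _).trans_le hQ2
  have hP0 : ∀ i, 0 < S.P i := fun i => lt_of_lt_of_le (mul_pos hQ0 (hpos _)) (hG.P1 i)
  obtain ⟨P, hP⟩ : ∃ P, P = S.P (Fin.last m) := ⟨_, rfl⟩
  have hPpos : 0 < P := by rw [hP]; exact hP0 _
  rw [← hP] at hXq1 hXq2
  have hP1 : S.Q * S.D ^ (cl - ε / 4) ≤ P := by rw [hP]; exact hG.P1 _
  have hX1n : 1 ≤ X := by
    have : 0 < S.Q := by exact_mod_cast hQ0
    omega
  have hX0 : (0 : ℝ) < X := by exact_mod_cast hX1n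
  have hQXr : (S.Q : ℝ) ≤ X := by exact_mod_cast hQX
  obtain ⟨L, hL⟩ : ∃ L, L = X * q0 := ⟨_, rfl⟩
  have hL1 : 1 ≤ L := by rw [hL]; exact Nat.mul_pos hX1n hq0
  have hLr : (L : ℝ) = (X : ℝ) * q0 := by rw [hL]; push_cast; rfl
  rw [← hLr] at hXq1 hXq2
  have hXL : (X : ℝ) ≤ L := by
    rw [hLr]
    have : (1 : ℝ) ≤ q0 := by exact_mod_cast hq0
    exact le_mul_of_one_le_right hX0.le this
  have hL0 : (0 : ℝ) < L := by exact_mod_cast hL1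
  -- the short interval
  obtain ⟨T', hT'⟩ : ∃ T', T' = ⌈S.D ^ (1 - 2 * ε)⌉₊ := ⟨_, rfl⟩
  have hT'1 : S.D ^ (1 - 2 * ε) ≤ T' := by rw [hT']; exact Nat.le_ceil _
  have hone : 1 ≤ S.D ^ (1 - 2 * ε) := Real.one_le_rpow hD1 (by linarith)
  have hT'2 : (T' : ℝ) ≤ 2 * S.D ^ (1 - 2 * ε) := by
    have := Nat.ceil_lt_add_one (hpos (1 - 2 * ε)).le
    rw [← hT'] at this
    linarith
  have hT'3 : 1 ≤ T' := by
    have : (1 : ℝ) ≤ T' := hone.trans hT'1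
    exact_mod_cast this
  have hn1 : n ≤ p := by omega
  have hδn : S.D ^ (-(ε / 8)) ≤ δ ^ n := hδq n hn1 _ hZ2
  have hδn0 : 0 < δ ^ n := pow_pos hδ0 n
  have hTT : (T' : ℝ) ≤ δ ^ n / 2 * S.T := by
    have h1 : S.D ^ (1 - ε / 4) ≤ S.T := hG.T1
    have h2 : 4 * S.D ^ (1 - 2 * ε) ≤ S.D ^ (-(ε / 8) + (1 - ε / 4)) :=
      hK 4 _ _ (by rw [hK0]; linarith) (by linarith)
    rw [← hadd] at h2
    have h3 : S.D ^ (-(ε / 8)) * S.D ^ (1 - ε / 4) ≤ δ ^ n * S.T :=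
      mul_le_mul hδn h1 (hpos _).le hδn0.le
    linarith
  have hLN : ((X * q0 : ℕ) : ℝ) ≤ δ ^ n / 4 * N := by
    rw [← hL]
    have h1 : P ≤ N * S.D ^ (ε / 4) := by rw [hP]; exact hG.N1 _
    have h2 : 4 * S.D ^ (ε / 4 + -ε) ≤ S.D ^ (-(ε / 8)) :=
      hK 4 _ _ (by rw [hK0]; linarith) (by linarith)
    have h3 : (L : ℝ) ≤ N * S.D ^ (ε / 4) * S.D ^ (-ε) :=
      hXq2.trans (mul_le_mul_of_nonneg_right h1 (hpos _).le)
    rw [mul_assoc, hadd] at h3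
    have hN0 : (0 : ℝ) ≤ N := by positivity
    have h4 : (N : ℝ) * (4 * S.D ^ (ε / 4 + -ε)) ≤ N * δ ^ n :=
      mul_le_mul_of_nonneg_left (h2.trans hδn) hN0
    linarith
  have hPD : 1 ≤ P * S.D ^ (-(2 * ε)) := by
    have h1 : S.D ^ (2 : ℝ) * S.D ^ (cl - ε / 4) ≤ P :=
      (mul_le_mul_of_nonneg_right hQ2 (hpos _).le).trans hP1
    rw [hadd] at h1
    have h2 : S.D ^ (2 + (cl - ε / 4)) * S.D ^ (-(2 * ε)) ≤ P * S.D ^ (-(2 * ε)) :=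
      mul_le_mul_of_nonneg_right h1 (hpos _).le
    rw [hadd] at h2
    exact (Real.one_le_rpow hD1 (by linarith)).trans h2
  obtain ⟨Bd, hBd⟩ : ∃ Bd, Bd = ⌊P * (κ1 * (T' / S.D)) + 1⌋₊ := ⟨_, rfl⟩
  have hBd0 : 0 ≤ P * (κ1 * (T' / S.D)) + 1 := by positivity
  have hTD : (T' : ℝ) / S.D ≤ 2 * S.D ^ (-(2 * ε)) := by
    rw [div_le_iff₀ hD0]
    have : S.D ^ (-(2 * ε)) * S.D = S.D ^ (1 - 2 * ε) := by
      conv_lhs => rw [← Real.rpow_one S.D]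
      rw [← Real.rpow_mul hD0.le, one_mul, hadd]
      congr 1; ring
    rw [mul_assoc, this]
    exact hT'2
  have hBdle : (Bd : ℝ) ≤ δ ^ n / 8 * ((X * q0 : ℕ) : ℝ) := by
    rw [← hL]
    have h1 : (Bd : ℝ) ≤ P * (κ1 * (T' / S.D)) + 1 := by rw [hBd]; exact Nat.floor_le hBd0
    have h2 : P * (κ1 * (T' / S.D)) ≤ P * (κ1 * (2 * S.D ^ (-(2 * ε)))) := by gcongr
    have h3 : 16 * (2 * κ1 + 1) * S.D ^ (-(2 * ε)) ≤ S.D ^ (-(ε / 8) + -ε) :=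
      hK _ _ _ (by rw [hK0]; linarith) (by linarith)
    rw [← hadd] at h3
    have h4 : S.D ^ (-(ε / 8)) * (P * S.D ^ (-ε) / 2) ≤ δ ^ n * L :=
      mul_le_mul hδn hXq1 (by have := hpos (-ε); positivity) hδn0.le
    have h5 : P * (16 * (2 * κ1 + 1) * S.D ^ (-(2 * ε))) ≤ P * (S.D ^ (-(ε / 8)) * S.D ^ (-ε)) :=
      mul_le_mul_of_nonneg_left h3 hPpos.le
    linarith
  have hu12 : ∀ u' : ℕ, S.u ≤ u' → u' + T' ≤ S.u + S.T →
      S.D ≤ (u' : ℝ) ∧ (u' : ℝ) + T' ≤ 2 * S.D := by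
    intro u' h1 h2
    have h3 : (S.u : ℝ) ≤ u' := by exact_mod_cast h1
    have h4 : (u' : ℝ) + T' ≤ S.u + S.T := by exact_mod_cast h2
    exact ⟨hG.u1.trans h3, h4.trans hG.u2⟩
  have hb : ∀ u' k : ℕ, S.u ≤ u' → u' ≤ k → k < u' + T' → u' + T' ≤ S.u + S.T →
      0 ≤ S.a c (Fin.last m) k - S.a c (Fin.last m) u' ∧
      S.a c (Fin.last m) k - S.a c (Fin.last m) u' ≤ Bd := by
    intro u' k h1 h2 h3 h4
    obtain ⟨h5, h6⟩ := hu12 u' h1 h4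
    have h7 := lpl_b S c (Fin.last m) hcl0 hG.ρ0 hG.ρ1 hD1 (hP0 _).le T' u' k h5 h2 h3 h6
    refine ⟨h7.1.1, ?_⟩
    have h8 := h7.1.2
    rw [← hcl, ← hκ1, ← hP] at h8
    have h9 : S.a c (Fin.last m) k - S.a c (Fin.last m) u' ≤ ⌊P * (κ1 * (T' / S.D)) + 1⌋ :=
      Int.le_floor.2 h8
    rw [hBd, ← Int.natCast_floor_eq_floor hBd0] at *
    exact h9
  have hPi : ∀ i : Fin m, S.P i.castSucc * 3 ^ (c i.castSucc) ≤ L := by
    intro i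
    have h1 : S.P i.castSucc ≤ S.Q * S.D ^ (c i.castSucc + ε / 4) := hG.P2 _
    have h2 : c i.castSucc ≤ cl - gap := by linarith [hgap i]
    have h3 : (3 : ℝ) ^ (c i.castSucc) ≤ 3 ^ cl :=
      Real.rpow_le_rpow_of_exponent_le (by norm_num) (by linarith)
    have h4 : S.D ^ (c i.castSucc + ε / 4) ≤ S.D ^ (cl - gap + ε / 4) := hexp _ _ (by linarith)
    have h5 : 2 * 3 ^ cl * S.D ^ (cl - gap + ε / 4) ≤ S.D ^ (cl - ε / 4 + -ε) :=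
      hK _ _ _ (by rw [hK0]; linarith) (by linarith)
    rw [← hadd (cl - ε / 4) (-ε)] at h5
    have h6 : S.Q * S.D ^ (cl - ε / 4) * S.D ^ (-ε) ≤ P * S.D ^ (-ε) :=
      mul_le_mul_of_nonneg_right hP1 (hpos _).le
    calc S.P i.castSucc * 3 ^ (c i.castSucc) ≤ (S.Q * S.D ^ (cl - gap + ε / 4)) * 3 ^ cl := by
          refine mul_le_mul (h1.trans (mul_le_mul_of_nonneg_left h4 hQ0.le)) h3 (by positivity) ?_
          have := hpos (cl - gap + ε / 4)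
          positivity
      _ = S.Q * (2 * 3 ^ cl * S.D ^ (cl - gap + ε / 4)) / 2 := by ring
      _ ≤ S.Q * (S.D ^ (cl - ε / 4) * S.D ^ (-ε)) / 2 :=
          div_le_div_of_nonneg_right (mul_le_mul_of_nonneg_left h5 hQ0.le) (by norm_num)
      _ ≤ P * S.D ^ (-ε) / 2 := by linarith
      _ ≤ L := hXq1
  -- localisation
  have hform' : δ ^ n ≤ ‖form S c 1 f0 (Fin.snoc (α := fun _ => ZMod N → ℂ) f (bphase X r cc φ))‖ := by
    refine le_trans ?_ hform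
    rw [hn]
    exact pow_le_pow_of_le_one hδ0.le hδ1 (by omega)
  obtain ⟨u', κ, hu1, hu2, hκ, hE2⟩ := lpl_cell S c (δ ^ n) hδn0 X q0 T' Bd hX1n hq0 hT'3 hTT hLN hb
    hBdle f0 f hf0.bdd (fun i => (hf i).bdd) r cc φ θ hcc hform'
  obtain ⟨hDu, hDu2⟩ := hu12 u' hu1 hu2
  obtain ⟨z, hz⟩ : ∃ z : ZMod N, z = r + ((κ * (X * q0) : ℕ) : ZMod N) -
    (S.a c (Fin.last m) u' : ZMod N) := ⟨_, rfl⟩
  rw [← hz] at hE2
  obtain ⟨j0, hj0, hcj0⟩ : ∃ j, j / q0 = κ ∧ cc j ≠ 0 := by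
    by_contra hcon
    push Not at hcon
    have hw0 : ∀ w, cpf X (X * q0) κ cc φ (θ κ) w = 0 := by
      intro w
      unfold cpf
      split_ifs with hw
      · rw [hcon _ (lpl_cell_index X q0 κ w hX1n hq0 hw), zero_mul]
      · rfl
    have h0 : lplE2 S c f0 f X (X * q0) κ z cc φ (θ κ) u' T' = 0 := by
      unfold lplE2
      refine expect_eq_zero fun k _ => expect_eq_zero fun y _ => ?_
      rw [hw0, zero_mul, mul_zero]
    rw [h0, norm_zero] at hE2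
    linarith
  obtain ⟨W, hW⟩ : ∃ W, W = δ⁻¹ ^ n := ⟨_, rfl⟩
  obtain ⟨ϑ, hϑ⟩ : ∃ ϑ, ϑ = θ κ := ⟨_, rfl⟩
  have hinv : 2 ≤ δ⁻¹ := by
    rw [le_inv_comm₀ (by norm_num) hδ0]; linarith
  have hinv1 : 1 ≤ δ⁻¹ := by linarith
  have hWδ : δ⁻¹ ≤ W := by
    rw [hW]; exact le_self_pow₀ hinv1 (by omega)
  have hW0 : 0 < W := by linarith
  have hφθ : ∀ j, j / q0 = κ → cc j ≠ 0 → |φ j - ϑ| ≤ W / X := by
    intro j hj hcj
    have := hφ2 j hcj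
    rw [hj, ← hϑ] at this
    refine this.trans ?_
    rw [hW, hn]
    exact div_le_div_of_nonneg_right (pow_le_pow_right₀ hinv1 (by omega)) hX0.le
  have hϑQ : |ϑ| ≤ 2 * W / S.Q := by
    have h1 := hφθ j0 hj0 hcj0
    have h2 := hφ1 j0
    have h3 : |ϑ| ≤ |φ j0| + |φ j0 - ϑ| := by
      have := abs_sub_abs_le_abs_sub ϑ (φ j0)
      rw [abs_sub_comm] at this
      linarith
    have h4 : W / X ≤ W / S.Q := div_le_div_of_nonneg_left hW0.le hQ0 hQXr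
    have h5 : δ⁻¹ / S.Q ≤ W / S.Q := div_le_div_of_nonneg_right hWδ hQ0.le
    have h6 : 2 * W / S.Q = W / S.Q + W / S.Q := by ring
    rw [h6]
    linarith
  have hinvq : ∀ q, q ≤ p → ∀ y : ℝ, Z ≤ y → δ⁻¹ ^ q ≤ S.D ^ y := by
    intro q hq y hy
    have h1 := hδq q hq y hy
    rw [Real.rpow_neg hD0.le] at h1
    rw [inv_pow]
    exact (inv_le_comm₀ (pow_pos hδ0 q) (hpos y)).2 h1
  -- the new parameter
  obtain ⟨δ', hδ'⟩ : ∃ δ', δ' = δ ^ (n + 5) := ⟨_, rfl⟩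
  have hδ'0 : 0 < δ' := by rw [hδ']; positivity
  have hδ'1 : S.D ^ (-σ2) ≤ δ' := by rw [hδ']; exact hδq (n + 5) hpn _ hZ1
  have hδ'2 : δ' ≤ 1 / 2 := by
    rw [hδ']
    refine le_trans ?_ hδ2
    calc δ ^ (n + 5) ≤ δ ^ 1 := pow_le_pow_of_le_one hδ0.le hδ1 (by omega)
      _ = δ := pow_one δ
  have hδ'i : 32 * W ≤ δ'⁻¹ := by
    rw [hδ', ← inv_pow, pow_add, ← hW]
    have h32 : (2 : ℝ) ^ 5 ≤ δ⁻¹ ^ 5 := pow_le_pow_left₀ (by norm_num) hinv 5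
    calc 32 * W = W * 2 ^ 5 := by ring
      _ ≤ W * δ⁻¹ ^ 5 := mul_le_mul_of_nonneg_left h32 hW0.le
  have hπ0 : 0 < Real.pi := Real.pi_pos
  have : NeZero (4 * (X * q0)) := ⟨by omega⟩
  have h4L : ((4 * (X * q0) : ℕ) : ℝ) = 4 * L := by rw [hL]; push_cast; ring
  have hx2p : ε / 4 ≤ x2 := by linarith
  have hGood : Good (S.sub u' T') c (4 * (X * q0)) x2 := by
    refine ⟨hG.ρ0, hG.ρ1, hG.Q1, hG.Q2, fun i => ?_, fun i => ?_, fun i => ?_, ?_, hDu, hDu2, ?_⟩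
    · exact (mul_le_mul_of_nonneg_left (hexp _ _ (by linarith)) hQ0.le).trans (hG.P1 i)
    · exact (hG.P2 i).trans (mul_le_mul_of_nonneg_left (hexp _ _ (by linarith)) hQ0.le)
    · rw [h4L]
      have h1x : 1 ≤ S.D ^ x2 := Real.one_le_rpow hD1 hx2.le
      change S.P i ≤ 4 * L * S.D ^ x2
      refine Fin.lastCases ?_ (fun i => ?_) i
      · rw [← hP]
        have h1 : S.D ^ (-ε) * S.D ^ x2 = S.D ^ (-ε + x2) := hadd _ _
        have h2 : 1 ≤ S.D ^ (-ε + x2) := Real.one_le_rpow hD1 (by linarith)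
        have h3 : P * S.D ^ (-ε) / 2 * S.D ^ x2 ≤ L * S.D ^ x2 :=
          mul_le_mul_of_nonneg_right hXq1 (hpos _).le
        have h4 : P * 1 ≤ P * (S.D ^ (-ε) * S.D ^ x2) := by
          rw [h1]; exact mul_le_mul_of_nonneg_left h2 hPpos.le
        linarith
      · have h1 := hPi i
        have h2 : (1 : ℝ) ≤ 3 ^ (c i.castSucc) := Real.one_le_rpow (by norm_num) (hc0 _).le
        have h3 : S.P i.castSucc * 1 ≤ S.P i.castSucc * 3 ^ (c i.castSucc) :=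
          mul_le_mul_of_nonneg_left h2 (hP0 _).le
        have h4 : (L : ℝ) * 1 ≤ L * S.D ^ x2 := mul_le_mul_of_nonneg_left h1x hL0.le
        linarith
    · rw [h4L]
      change (S.Q : ℝ) ≤ 4 * L
      linarith
    · change S.D ^ (1 - x2) ≤ (T' : ℝ)
      exact (hexp _ _ (by linarith)).trans hT'1
  have hQpos : 0 < S.Q := by exact_mod_cast hQ0
  -- classes
  have hA0 := lpl_classes X q0 S.Q hX1n hq0 hQX hQpos δ⁻¹ W δ'⁻¹ hinv hWδ hδ'i z ϑ hϑQ f0 hf0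
  have hAi := fun i => lpl_classes_i X q0 S.Q hX1n hq0 hQX hQpos δ⁻¹ W δ'⁻¹ hinv hWδ hδ'i z
    (f i) (hf i)
  have hAc := lpl_classes_c X q0 κ hX1n hq0 W δ'⁻¹ (hinv.trans hWδ) hδ'i cc φ ϑ hcc hφθ
    (S.a c (Fin.last m) u' : ZMod (4 * (X * q0)))
  have hA : ∀ i, Adm (N := 4 * (X * q0)) δ'⁻¹ S.Q ((Fin.snoc (α := fun _ => ZMod (4 * (X * q0)) → ℂ)
      (fun i y => f i (z + (y.val : ZMod N)))
      (fun y => cpf X (X * q0) κ cc φ ϑ (y - (S.a c (Fin.last m) u' : ZMod (4 * (X * q0)))).val) :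
      Fin (m + 1) → ZMod (4 * (X * q0)) → ℂ) i) := by
    intro i
    refine Fin.lastCases ?_ (fun i => ?_) i
    · rw [Fin.snoc_last]
      exact hAc.mono le_rfl hQ0 hQXr
    · rw [Fin.snoc_castSucc]
      exact hAi i
  have hkI : ∀ k ∈ Ico u' (u' + T'), u' ≤ k ∧ k < u' + T' := fun k hk => mem_Ico.1 hk
  have hδn8 : δ ^ n / 8 ≤ 1 := by
    have := pow_le_one₀ hδ0.le hδ1 (n := n)
    linarith only [this]
  have htr := lpl_transport S c f0 f X (X * q0) κ z cc φ ϑ u' T' (hL ▸ hL1)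
    (by
      intro i k hk
      obtain ⟨hk1, hk2⟩ := hkI k hk
      have h7 := lpl_b S c i.castSucc (hc0 _) hG.ρ0 hG.ρ1 hD1 (hP0 _).le T' u' k hDu hk1 hk2 hDu2
      refine ⟨h7.2.1, ?_⟩
      have h8 := h7.2.2.trans (hPi i)
      rw [hL] at h8
      exact_mod_cast h8)
    (by
      intro k hk
      obtain ⟨hk1, hk2⟩ := hkI k hk
      have h7 := hb u' k hu1 hk1 hk2 hu2
      refine ⟨h7.1, h7.2.trans ?_⟩
      have h8 : (Bd : ℝ) ≤ ((X * q0 : ℕ) : ℝ) := by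
        refine hBdle.trans ?_
        exact mul_le_of_le_one_left (by positivity) hδn8
      exact_mod_cast h8)
  have hF : δ' ≤ ‖form (N := 4 * (X * q0)) (S.sub u' T') c
      (fun k => e (ϑ * ((S.a c (Fin.last m) k - S.a c (Fin.last m) u' : ℤ) : ℝ)))
      (fun y => if y.val < X * q0 then f0 (z + (y.val : ZMod N)) * e (ϑ * (y.val : ℝ)) else 0)
      (Fin.snoc (α := fun _ => ZMod (4 * (X * q0)) → ℂ) (fun i y => f i (z + (y.val : ZMod N)))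
        (fun y => cpf X (X * q0) κ cc φ ϑ (y - (S.a c (Fin.last m) u' : ZMod (4 * (X * q0)))).val))‖ := by
    rw [htr, norm_mul, hϑ]
    have h1 : ‖(1 / 4 : ℂ)‖ = 1 / 4 := by norm_num
    rw [h1, hδ', pow_add]
    have h2 : δ ^ 5 ≤ 1 / 32 := by
      calc δ ^ 5 ≤ (1 / 2) ^ 5 := pow_le_pow_left₀ hδ0.le hδ2 5
        _ = 1 / 32 := by norm_num
    have h3 : δ ^ n * δ ^ 5 ≤ δ ^ n * (1 / 32) := mul_le_mul_of_nonneg_left h2 hδn0.le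
    linarith only [h3, hE2]
  have hX1' : S.Q * S.D ^ (s - σ2) ≤ (X : ℝ) := by
    refine (mul_le_mul_of_nonneg_left (hexp _ _ ?_) hQ0.le).trans hX1
    have h1 : Z / p ≤ Z := div_le_self hZ0.le (by exact_mod_cast hp0)
    linarith only [h1, hZ1]
  obtain ⟨θ', hθ1, hθ2, hθ3⟩ := H2 (S.sub u' T') (4 * (X * q0)) hDD2 hGood δ' hδ'1 hδ'2 X hQXr
    hX1' hX2 _ _ _ (fun k => (norm_e _).le) hA0 hA (by rw [Fin.snoc_last]; exact hAc) hF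
  -- the window
  obtain ⟨ε2, hε2'⟩ : ∃ ε2, ε2 = min (xE / 2) (1 / 2) := ⟨_, rfl⟩
  rw [← hε2'] at hθ3
  have hε2a : ε2 ≤ xE / 2 := by rw [hε2']; exact min_le_left _ _
  have hε2b : ε2 ≤ 1 / 2 := by rw [hε2']; exact min_le_right _ _
  have hε20 : 0 < ε2 := by rw [hε2']; positivity
  obtain ⟨K, hKd⟩ : ∃ K, K = ⌊S.D ^ (1 - ε2)⌋₊ := ⟨_, rfl⟩
  have hK2 : (K : ℝ) ≤ S.D ^ (1 - ε2) := by rw [hKd]; exact Nat.floor_le (hpos _).le
  have hK3 : S.D ^ (1 - ε2) < K + 1 := by rw [hKd]; exact Nat.lt_floor_add_one _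
  have hD2 : 2 ≤ S.D ^ (1 - ε2) := by
    have h1 : S.D ^ (1 / 2 : ℝ) ≤ S.D ^ (1 - ε2) := hexp _ _ (by linarith only [hε2b])
    have h2 : (4 : ℝ) ^ (1 / 2 : ℝ) ≤ S.D ^ (1 / 2 : ℝ) :=
      Real.rpow_le_rpow (by norm_num) (by linarith only [hD26]) (by norm_num)
    have h3 : (4 : ℝ) ^ (1 / 2 : ℝ) = 2 := by
      rw [← Real.sqrt_eq_rpow, show (4 : ℝ) = 2 ^ 2 by norm_num]
      exact Real.sqrt_sq (by norm_num)
    linarith only [h1, h2, h3]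
  have hK1 : 1 ≤ K := by
    have : (1 : ℝ) ≤ K := by linarith only [hK3, hD2]
    exact_mod_cast this
  have hK4 : S.D ^ (1 - xE) ≤ K := by
    have h1 : 2 ≤ S.D ^ (xE - ε2) := hDxE.trans (hexp _ _ (by linarith only [hε2a]))
    have h2 : S.D ^ (1 - ε2) = S.D ^ (xE - ε2) * S.D ^ (1 - xE) := by
      rw [hadd]; congr 1; ring
    have h3 : 2 * S.D ^ (1 - xE) ≤ S.D ^ (1 - ε2) := by
      rw [h2]; exact mul_le_mul_of_nonneg_right h1 (hpos _).le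
    linarith only [h3, hK3, hD2]
  have hKD : (K : ℝ) ≤ S.D := by
    refine hK2.trans ?_
    calc S.D ^ (1 - ε2) ≤ S.D ^ (1 : ℝ) := hexp _ _ (by linarith only [hε20])
      _ = S.D := Real.rpow_one _
  have hθ3' := hθ3 K hK1 hK2
  have hδC : δ' ^ C2 = δ ^ ((n + 5) * C2) := by rw [hδ', ← pow_mul]
  have hδC' : δ'⁻¹ ^ C2 = δ⁻¹ ^ ((n + 5) * C2) := by rw [hδ', ← inv_pow, ← pow_mul]
  have hfin := lpl_final S c θ' ϑ (δ' ^ C2) (S.D ^ ((cl - s) / 8)) (S.D ^ (-σE)) (S.D ^ (cl + 5)) u' T' K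
    hT'3 hDu hDu2 hKD
    (by
      have h1 : S.D ^ (-(σE / 2)) ≤ δ' ^ C2 := by rw [hδC]; exact hδq _ hpC _ hZ4
      have h2 : S.D ^ (-(σE / 2)) = S.D ^ (-σE) * S.D ^ (σE / 2) := by
        rw [hadd]; congr 1; ring
      have h3 : S.D ^ (-σE) * 3 ≤ S.D ^ (-σE) * S.D ^ (σE / 2) :=
        mul_le_mul_of_nonneg_left hDσE (hpos _).le
      have h4 := hpos (-σE)
      linarith only [h1, h2, h3, h4])
    (by
      have h1 : S.D ^ (-(1 / 2 : ℝ)) ≤ δ' ^ C2 := by rw [hδC]; exact hδq _ hpC _ hZ3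
      have h2 : W ≤ S.D ^ (1 / 2 : ℝ) := by rw [hW]; exact hinvq n hn1 _ hZ3
      have h3 : |ϑ| ≤ 2 * S.D ^ (1 / 2 : ℝ) / S.D ^ (2 : ℝ) :=
        hϑQ.trans (div_le_div₀ (by have := hpos (1 / 2); positivity)
          (mul_le_mul_of_nonneg_left h2 (by norm_num)) (hpos _) hQ2)
      have h4 : 2 * S.D ^ (1 / 2 : ℝ) / S.D ^ (2 : ℝ) = 2 * S.D ^ (-(3 / 2) : ℝ) := by
        rw [mul_div_assoc, ← Real.rpow_sub hD0]; congr 2; norm_num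
      rw [h4] at h3
      have h5 : S.D ^ (-(1 / 2 : ℝ)) = S.D ^ (1 : ℝ) * S.D ^ (-(3 / 2) : ℝ) := by
        rw [hadd]; congr 1; norm_num
      rw [Real.rpow_one] at h5
      have h6 : 26 * S.D ^ (-(3 / 2) : ℝ) ≤ S.D * S.D ^ (-(3 / 2) : ℝ) :=
        mul_le_mul_of_nonneg_right hD26 (hpos _).le
      have h7 : 2 * Real.pi * |ϑ| ≤ 2 * 3.15 * (2 * S.D ^ (-(3 / 2) : ℝ)) :=
        mul_le_mul (mul_le_mul_of_nonneg_left Real.pi_lt_d2.le (by norm_num)) h3 (abs_nonneg _)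
          (by norm_num)
      have h8 := hpos (-(3 / 2) : ℝ)
      linarith only [h1, h5, h6, h7, h8])
    (by
      intro v hv1 hv2 k hk1 hk2
      have h1 := HE S.D hDDE S.ρ hG.ρ0 hG.ρ1 v hv1 hv2 0 (by simp) k K hk1 hk2 hK4
      simpa only [Polynomial.eval_zero, add_zero] using h1)
    (by
      intro i
      have h1 : |θ' i| ≤ S.D ^ (1 / 2 : ℝ) / S.Q := by
        refine (hθ1 i).trans ?_
        rw [hδC']
        exact div_le_div_of_nonneg_right (hinvq _ hpC _ hZ3) hQ0.le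
      have h2 : |ϑ| ≤ 2 * S.D ^ (1 / 2 : ℝ) / S.Q := by
        refine hϑQ.trans (div_le_div_of_nonneg_right ?_ hQ0.le)
        rw [hW]
        exact mul_le_mul_of_nonneg_left (hinvq n hn1 _ hZ3) (by norm_num)
      have hci : c i ≤ cl := hc.monotone (Fin.le_last i)
      have h3 : S.P i ≤ S.Q * S.D ^ (cl + 1) :=
        (hG.P2 i).trans (mul_le_mul_of_nonneg_left (hexp _ _ (by linarith only [hci, hε4])) hQ0.le)
      rw [abs_mul, abs_mul, abs_of_pos (hP0 i), ← add_mul]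
      have h4 : |θ' i| + |ϑ| ≤ 3 * S.D ^ (1 / 2 : ℝ) / S.Q := by
        have : 3 * S.D ^ (1 / 2 : ℝ) / S.Q = S.D ^ (1 / 2 : ℝ) / S.Q + 2 * S.D ^ (1 / 2 : ℝ) / S.Q := by
          ring
        linarith only [h1, h2, this]
      calc (|θ' i| + |ϑ|) * S.P i ≤ (3 * S.D ^ (1 / 2 : ℝ) / S.Q) * (S.Q * S.D ^ (cl + 1)) :=
            mul_le_mul h4 h3 (hP0 i).le (by have := hpos (1 / 2); positivity)
        _ = 3 * (S.D ^ (1 / 2 : ℝ) * S.D ^ (cl + 1)) := by field_simp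
        _ = 3 * S.D ^ (1 / 2 + (cl + 1)) := by rw [hadd]
        _ ≤ S.D * S.D ^ (1 / 2 + (cl + 1)) :=
            mul_le_mul_of_nonneg_right (by linarith only [hD26]) (hpos _).le
        _ = S.D ^ (1 + (1 / 2 + (cl + 1))) := by
            rw [← hadd 1, Real.rpow_one]
        _ ≤ S.D ^ (cl + 5) := hexp _ _ (by linarith only))
    hθ3'
  -- conclusion
  rw [← add_mul, abs_mul, ← hP, abs_of_pos hPpos] at hfin
  have hXP : (X : ℝ) * S.D ^ ((cl - s) / 8) ≤ P := by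
    calc (X : ℝ) * S.D ^ ((cl - s) / 8) ≤ (S.Q * S.D ^ s) * S.D ^ ((cl - s) / 8) :=
          mul_le_mul_of_nonneg_right hX2 (hpos _).le
      _ = S.Q * S.D ^ (s + (cl - s) / 8) := by rw [mul_assoc, hadd]
      _ ≤ S.Q * S.D ^ (cl - ε / 4) :=
          mul_le_mul_of_nonneg_left (hexp _ _ (by linarith only [hε2, hs])) hQ0.le
      _ ≤ P := hP1
  have hϑX : |θ' (Fin.last m) + ϑ| ≤ 1 / X := by
    rw [le_div_iff₀ hX0]
    have h1 : |θ' (Fin.last m) + ϑ| * P * X ≤ S.D ^ ((cl - s) / 8) * X :=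
      mul_le_mul_of_nonneg_right hfin.le hX0.le
    have h2 : |θ' (Fin.last m) + ϑ| * X * P ≤ 1 * P := by linarith only [h1, hXP]
    exact le_of_mul_le_mul_right h2 hPpos
  have hϑ1 : |ϑ| ≤ |θ' (Fin.last m) + ϑ| + |θ' (Fin.last m)| := by
    have := abs_sub (θ' (Fin.last m) + ϑ) (θ' (Fin.last m))
    rw [add_sub_cancel_left] at this
    exact this
  refine ⟨j0, hcj0, ?_⟩
  have h1 : |φ j0| ≤ |φ j0 - ϑ| + |ϑ| := by
    have := abs_add_le (φ j0 - ϑ) ϑ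
    rwa [sub_add_cancel] at this
  have h2 := hφθ j0 hj0 hcj0
  have h3 : W ≤ δ⁻¹ ^ p := by rw [hW]; exact pow_le_pow_right₀ hinv1 hn1
  have h4 : δ'⁻¹ ^ C2 ≤ δ⁻¹ ^ p := by rw [hδC']; exact pow_le_pow_right₀ hinv1 hpC
  have h5 : 1 ≤ δ⁻¹ ^ p := one_le_pow₀ hinv1
  have h6 : (2 : ℝ) ^ 2 ≤ δ⁻¹ ^ 2 := pow_le_pow_left₀ (by norm_num) hinv 2
  have h7 : δ⁻¹ ^ p * 2 ^ 2 ≤ δ⁻¹ ^ p * δ⁻¹ ^ 2 := mul_le_mul_of_nonneg_left h6 (by linarith only [h5])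
  have h8 : W / X + (1 / X + δ'⁻¹ ^ C2 / X) = (W + 1 + δ'⁻¹ ^ C2) / X := by ring
  have h9 : W / X + (1 / X + δ'⁻¹ ^ C2 / X) ≤ δ⁻¹ ^ (p + 2) / X := by
    rw [h8, pow_add]
    refine div_le_div_of_nonneg_right ?_ hX0.le
    linarith only [h3, h4, h5, h7]
  linarith only [h1, h2, h9, hϑ1, hϑX, hθ2]

end

end Pool.Agent.Helper57.NX
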